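import Pool.Agent.Helper7.FS.Nil

/-!
The Jacobian cocycle of the automorphism group of a group `S` with coefficients in a
representation of `S`, twisted by the abelianization (MP_4aafa9_al).
-/

set_option autoImplicit false

set_option linter.unusedSectionVars false

namespace Pool.Agent.Helper7.FS

open MonoidAlgebra

section Ring

/-- The ring of coefficients: the group ring of the abelianization over the ring of functions on
the automorphism group. -/
abbrev P (S C : Type) [Group S] [CommRing C] := MonoidAlgebra (MulAut S → C) (Abelianization S)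

variable {S : Type} [Group S] {C : Type} [CommRing C]

/-- The shift of functions on the automorphism group. -/
def shift (γ : MulAut S) : (MulAut S → C) →+* (MulAut S → C) :=
  RingHom.pi fun γ' => Pi.evalRingHom (fun _ => C) (γ' * γ)

lemma shift_apply (γ : MulAut S) (f : MulAut S → C) (γ' : MulAut S) :
    shift γ f γ' = f (γ' * γ) := rfl

/-- The action on the abelianization. -/
def ab (γ : MulAut S) : Abelianization S →* Abelianization S :=
  Abelianization.map γ.toMonoidHom

lemma ab_of (γ : MulAut S) (s : S) : ab γ (Abelianization.of s) = Abelianization.of (γ s) := rfl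

lemma ab_one : ab (1 : MulAut S) = MonoidHom.id _ := Abelianization.hom_ext _ _ rfl

lemma ab_mul (γ ψ : MulAut S) : ab (γ * ψ) = (ab γ).comp (ab ψ) := Abelianization.hom_ext _ _ rfl

lemma ab_inv_ab (γ : MulAut S) (a : Abelianization S) : ab γ⁻¹ (ab γ a) = a := by
  have h := ab_mul γ⁻¹ γ
  rw [inv_mul_cancel, ab_one] at h
  exact (DFunLike.congr_fun h a).symm

lemma ab_ab_inv (γ : MulAut S) (a : Abelianization S) : ab γ (ab γ⁻¹ a) = a := by
  have h := ab_mul γ γ⁻¹
  rw [mul_inv_cancel, ab_one] at h
  exact (DFunLike.congr_fun h a).symm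

lemma ab_injective (γ : MulAut S) : Function.Injective (ab γ) :=
  Function.LeftInverse.injective (ab_inv_ab γ)

/-- The action of the automorphism group on the ring of coefficients. -/
noncomputable def act (γ : MulAut S) : P S C →+* P S C :=
  (mapDomainRingHom (MulAut S → C) (ab γ)).comp (mapRingHom (Abelianization S) (shift γ))

lemma act_single (γ : MulAut S) (a : Abelianization S) (f : MulAut S → C) :
    act γ (single a f) = single (ab γ a) (shift γ f) := by
  simp [act]

lemma act_coeff (γ : MulAut S) (p : P S C) (a : Abelianization S) :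
    (act γ p).coeff (ab γ a) = shift γ (p.coeff a) := by
  simp only [act, RingHom.comp_apply, mapDomainRingHom_apply, coeff_mapDomain]
  rw [Finsupp.mapDomain_apply (ab_injective γ), coeff_mapRingHom]

lemma act_mul (γ ψ : MulAut S) (p : P S C) : act (γ * ψ) p = act γ (act ψ p) := by
  induction p using MonoidAlgebra.induction_linear with
  | zero => simp
  | add f g hf hg => rw [map_add, map_add, map_add, hf, hg]
  | single a b =>
    rw [act_single, act_single, act_single, ab_mul]
    rfl

lemma act_one (p : P S C) : act 1 p = p := by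
  induction p using MonoidAlgebra.induction_linear with
  | zero => simp
  | add f g hf hg => rw [map_add, hf, hg]
  | single a b =>
    rw [act_single, ab_one]
    rfl

/-- The logarithmic part: the derivation of the group ring given by a character. -/
noncomputable def dl (θ : Abelianization S →* Multiplicative ℤ) : P S C →+ P S C :=
  liftNC (singleAddHom 1) (fun a => single a ((θ a).toAdd : MulAut S → C))

lemma dl_single (θ : Abelianization S →* Multiplicative ℤ) (a : Abelianization S)
    (f : MulAut S → C) :
    dl θ (single a f) = single a (f * ((θ a).toAdd : MulAut S → C)) := by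
  simp [dl, single_mul_single]

lemma dl_mul (θ : Abelianization S →* Multiplicative ℤ) (p q : P S C) :
    dl θ (p * q) = dl θ p * q + p * dl θ q := by
  induction p using MonoidAlgebra.induction_linear with
  | zero => simp
  | add f g hf hg =>
    rw [add_mul, map_add, map_add, hf, hg]
    ring
  | single a b =>
    induction q using MonoidAlgebra.induction_linear with
    | zero => simp
    | add f g hf hg =>
      rw [mul_add, map_add, map_add, hf, hg]
      ring
    | single c d =>
      rw [single_mul_single, dl_single, dl_single, dl_single, single_mul_single,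
        single_mul_single, ← single_add, map_mul, toAdd_mul]
      congr 1
      push_cast
      ring

lemma dl_act (θ : Abelianization S →* Multiplicative ℤ) (γ : MulAut S) (p : P S C) :
    dl θ (act γ p) = act γ (dl (θ.comp (ab γ)) p) := by
  induction p using MonoidAlgebra.induction_linear with
  | zero => simp
  | add f g hf hg => rw [map_add, map_add, map_add, map_add, hf, hg]
  | single a b =>
    rw [act_single, dl_single, dl_single, act_single, map_mul, map_intCast]
    rfl

lemma dl_one (θ : Abelianization S →* Multiplicative ℤ) : dl θ (1 : P S C) = 0 := by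
  rw [MonoidAlgebra.one_def, dl_single]
  simp

lemma dl_support (θ : Abelianization S →* Multiplicative ℤ) (p : P S C) (a : Abelianization S) :
    (dl θ p).coeff a = p.coeff a * ((θ a).toAdd : MulAut S → C) := by
  induction p using MonoidAlgebra.induction_linear with
  | zero => simp
  | add f g hf hg => rw [map_add, coeff_add, coeff_add, Finsupp.add_apply, Finsupp.add_apply, hf,
      hg, add_mul]
  | single b c =>
    rw [dl_single, coeff_single, coeff_single]
    by_cases h : b = a
    · subst h
      rw [Finsupp.single_eq_same, Finsupp.single_eq_same]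
    · rw [Finsupp.single_eq_of_ne (Ne.symm h), Finsupp.single_eq_of_ne (Ne.symm h), zero_mul]

/-- Nontrivial `k`-th powers in the abelianization. -/
def Pk (k : ℕ) (a : Abelianization S) : Prop := a ≠ 1 ∧ ∃ b, b ^ k = a

lemma Pk_ab {k : ℕ} {γ : MulAut S} {a : Abelianization S} (h : Pk k (ab γ a)) : Pk k a := by
  obtain ⟨h1, b, hb⟩ := h
  refine ⟨?_, ab γ⁻¹ b, ?_⟩
  · rintro rfl
    exact h1 (map_one _)
  · rw [← map_pow, hb, ab_inv_ab]

/-- The elements of the ring without components in degrees that are nontrivial `k`-th powers. -/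
def Ik (k : ℕ) : AddSubgroup (P S C) where
  carrier := {p | ∀ a, Pk k a → p.coeff a = 0}
  zero_mem' := fun a _ => rfl
  add_mem' := fun {p q} hp hq a ha => by
    rw [coeff_add, Finsupp.add_apply, hp a ha, hq a ha, add_zero]
  neg_mem' := fun {p} hp a ha => by
    rw [coeff_neg, Finsupp.neg_apply, hp a ha, neg_zero]

lemma mem_Ik {k : ℕ} {p : P S C} : p ∈ Ik k ↔ ∀ a, Pk k a → p.coeff a = 0 := Iff.rfl

lemma act_mem_Ik {k : ℕ} {p : P S C} (hp : p ∈ Ik k) (γ : MulAut S) : act γ p ∈ Ik k := by
  intro a ha
  rw [← ab_ab_inv γ a] at ha ⊢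
  rw [act_coeff, hp _ (Pk_ab ha), map_zero]

end Ring

section Jac

variable {S : Type} [Group S] {C : Type} [CommRing C]
variable {m : Type} [Fintype m] [DecidableEq m] (ρ : S →* Matrix m m C)

/-- The universal representation. -/
noncomputable def rep : S →* Matrix m m (P S C) where
  toFun s := Matrix.of fun i j => single (Abelianization.of s) fun γ => ρ (γ s) i j
  map_one' := by
    ext1 i j
    simp only [Matrix.of_apply, map_one, Matrix.one_apply]
    split_ifs
    · rfl
    · exact single_zero _
  map_mul' s t := by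
    ext1 i j
    have h : ∀ (a : Abelianization S) (F : m → MulAut S → C),
        ∑ l, (single a (F l) : P S C) = single a (∑ l, F l) := fun a F =>
      (map_sum (singleAddHom a) F Finset.univ).symm
    rw [Matrix.mul_apply]
    simp only [Matrix.of_apply, map_mul, single_mul_single]
    rw [h]
    congr 1
    ext γ
    rw [Finset.sum_apply, Matrix.mul_apply]
    rfl

lemma rep_apply (s : S) (i j : m) :
    rep ρ s i j = single (Abelianization.of s) fun γ => ρ (γ s) i j := rfl

lemma act_rep (γ : MulAut S) (s : S) : (act γ).mapMatrix (rep ρ s) = rep ρ (γ s) := by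
  ext1 i j
  rw [RingHom.mapMatrix_apply, Matrix.map_apply, rep_apply, rep_apply, act_single, ab_of]
  rfl

variable {X : Type} [Fintype X] [DecidableEq X] (gen : X → S)
  (D : X → S → Matrix m m (P S C))

/-- The Jacobian matrix of an automorphism. -/
def J (γ : MulAut S) : Matrix X X (Matrix m m (P S C)) := fun x y => D y (γ (gen x))

variable (hgen : Subgroup.closure (Set.range gen) = ⊤)
  (hD : ∀ y g h, D y (g * h) = D y g + rep ρ g * D y h)
  (hDx : ∀ y x, D y (gen x) = if x = y then 1 else 0)

include hDx in
lemma J_one : J gen D 1 = 1 := by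
  ext1 x y
  rw [J, MulAut.one_apply, hDx, Matrix.one_apply]

include hgen hD hDx in
lemma J_mul (γ ψ : MulAut S) :
    J gen D (γ * ψ) = (act γ).mapMatrix.mapMatrix (J gen D ψ) * J gen D γ := by
  ext1 x y
  have key := deriv_unique ((rep ρ).comp γ.toMonoidHom) (Set.range gen) hgen
    (fun s => D y (γ s))
    (fun s => ∑ z, (act γ).mapMatrix (D z s) * D y (γ (gen z)))
    (by
      intro g h
      show D y (γ (g * h)) = _
      rw [map_mul, hD]
      rfl)
    (by
      intro g h
      simp only [hD, map_add, map_mul, add_mul, Finset.sum_add_distrib, Finset.mul_sum,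
        MonoidHom.comp_apply, mul_assoc]
      congr 1
      refine Finset.sum_congr rfl fun z _ => ?_
      rw [act_rep]
      rfl)
    (by
      rintro _ ⟨x, rfl⟩
      simp only [hDx]
      rw [Finset.sum_eq_single x]
      · simp
      · intro z _ hz
        rw [if_neg (Ne.symm hz), map_zero, zero_mul]
      · intro h
        exact absurd (Finset.mem_univ x) h)
    (ψ (gen x))
  rw [J, MulAut.mul_apply, key, Matrix.mul_apply]
  rfl

/-- The determinant of the Jacobian matrix. -/
noncomputable def Δ (γ : MulAut S) : P S C :=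
  (Matrix.compRingEquiv X m (P S C) (J gen D γ)).det

include hDx in
lemma Δ_one : Δ gen D 1 = 1 := by
  rw [Δ, J_one gen D hDx, map_one, Matrix.det_one]

include hgen hD hDx in
lemma Δ_mul (γ ψ : MulAut S) : Δ gen D (γ * ψ) = act γ (Δ gen D ψ) * Δ gen D γ := by
  rw [Δ, J_mul ρ gen D hgen hD hDx, map_mul, Matrix.det_mul, Δ, Δ, RingHom.map_det]
  rfl

/-- The logarithmic derivative of the determinant of the Jacobian matrix. -/
noncomputable def κ (θ : Abelianization S →* Multiplicative ℤ) (γ : MulAut S) : P S C :=
  act γ (Δ gen D γ⁻¹) * dl θ (Δ gen D γ)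

include hgen hD hDx in
lemma Δ_inv (γ : MulAut S) : act γ (Δ gen D γ⁻¹) * Δ gen D γ = 1 := by
  rw [← Δ_mul ρ gen D hgen hD hDx, mul_inv_cancel, Δ_one gen D hDx]

include hgen hD hDx in
lemma κ_eq (θ : Abelianization S →* Multiplicative ℤ) (γ : MulAut S) :
    κ gen D θ γ * Δ gen D γ = dl θ (Δ gen D γ) := by
  rw [κ, mul_right_comm, Δ_inv ρ gen D hgen hD hDx, one_mul]

include hgen hD hDx in
lemma κ_mul (θ : Abelianization S →* Multiplicative ℤ) (γ ψ : MulAut S) :
    κ gen D θ (γ * ψ) = κ gen D θ γ + act γ (κ gen D (θ.comp (ab γ)) ψ) := by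
  have hu : IsUnit (Δ gen D (γ * ψ)) :=
    IsUnit.of_mul_eq_one_right _ (Δ_inv ρ gen D hgen hD hDx (γ * ψ))
  apply hu.mul_right_cancel
  rw [κ_eq ρ gen D hgen hD hDx, Δ_mul ρ gen D hgen hD hDx, dl_mul, dl_act, add_mul]
  have h1 := κ_eq ρ gen D hgen hD hDx θ γ
  have h2 := congrArg (act γ) (κ_eq ρ gen D hgen hD hDx (θ.comp (ab γ)) ψ)
  rw [map_mul] at h2
  rw [← h2, ← h1]
  ring

include hDx in
lemma κ_one (θ : Abelianization S →* Multiplicative ℤ) : κ gen D θ 1 = 0 := by
  rw [κ, Δ_one gen D hDx, dl_one, mul_zero]

/-- The automorphisms whose logarithmic derivative vanishes in degrees that are nontrivial `k`-th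
powers. -/
def Nk (k : ℕ) : Subgroup (MulAut S) where
  carrier := {γ | ∀ θ, κ gen D θ γ ∈ Ik k}
  one_mem' := fun θ => by
    rw [κ_one gen D hDx]
    exact zero_mem _
  mul_mem' := fun {γ ψ} hγ hψ θ => by
    rw [κ_mul ρ gen D hgen hD hDx]
    exact add_mem (hγ θ) (act_mem_Ik (hψ _) γ)
  inv_mem' := fun {γ} hγ θ => by
    have h := κ_mul ρ gen D hgen hD hDx θ γ⁻¹ γ
    rw [inv_mul_cancel, κ_one gen D hDx] at h
    rw [eq_neg_of_add_eq_zero_left h.symm]
    exact neg_mem (act_mem_Ik (hγ _) γ⁻¹)

/-- Every automorphism is in `Nk` for large `k`. -/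
lemma eventually_mem_Nk (hfin : ∀ a : Abelianization S, a ≠ 1 → ∃ K : ℕ, ∀ k, K ≤ k → ¬ Pk k a)
    (γ : MulAut S) : ∃ K : ℕ, ∀ k, K ≤ k → γ ∈ Nk ρ gen D hgen hD hDx k := by
  classical
  open scoped Pointwise in
  obtain ⟨E, hE⟩ : ∃ E : Finset (Abelianization S), ∀ θ, (κ gen D θ γ).coeff.support ⊆ E := by
    refine ⟨(act γ (Δ gen D γ⁻¹)).coeff.support * (Δ gen D γ).coeff.support, fun θ => ?_⟩
    refine (support_coeff_mul_subset _ _).trans (Finset.mul_subset_mul_left ?_)
    intro a ha
    rw [Finsupp.mem_support_iff] at ha ⊢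
    intro h0
    apply ha
    rw [dl_support, h0, zero_mul]
  have h1 : ∀ a : Abelianization S, ∃ K : ℕ, ∀ k, K ≤ k → ¬ Pk k a := by
    intro a
    by_cases ha : a = 1
    · exact ⟨0, fun k _ h => h.1 ha⟩
    · exact hfin a ha
  choose K hK using h1
  refine ⟨E.sup K, fun k hk θ a ha => ?_⟩
  by_contra h0
  have h2 : a ∈ E := hE θ (Finsupp.mem_support_iff.2 h0)
  exact hK a k ((Finset.le_sup h2).trans hk) ha

/-- **Criterion.** -/
theorem not_fg (hfin : ∀ a : Abelianization S, a ≠ 1 → ∃ K : ℕ, ∀ k, K ≤ k → ¬ Pk k a)
    (hw : ∀ k : ℕ, 1 ≤ k → ∃ γ, γ ∉ Nk ρ gen D hgen hD hDx k) : ¬ Group.FG (MulAut S) := by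
  intro hfg
  obtain ⟨T, hT⟩ := Group.fg_def.1 hfg
  have h := fun γ => eventually_mem_Nk ρ gen D hgen hD hDx hfin γ
  choose K hK using h
  obtain ⟨γ, hγ⟩ := hw (T.sup K + 1) (by omega)
  apply hγ
  have h1 : Subgroup.closure (T : Set (MulAut S)) ≤ Nk ρ gen D hgen hD hDx (T.sup K + 1) := by
    rw [Subgroup.closure_le]
    intro x hx
    exact hK x _ ((Finset.le_sup hx).trans (Nat.le_succ _))
  apply h1
  rw [hT]
  trivial

end Jac

end Pool.Agent.Helper7.FS
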