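import Pool.Agent.Helper7.FS.Coc

/-!
The Jacobian determinant of a wild automorphism (MP_4aafa9_al).
-/

set_option autoImplicit false

set_option linter.unusedSectionVars false

namespace Pool.Agent.Helper7.FS

open MonoidAlgebra

section Block

variable {X m R : Type} [Fintype X] [DecidableEq X] [Fintype m] [DecidableEq m] [CommRing R]

lemma det_block (M : Matrix X X (Matrix m m R)) (x₁ : X)
    (hM : ∀ x, x ≠ x₁ → ∀ y, M x y = if x = y then 1 else 0) :
    (Matrix.compRingEquiv X m R M).det = (M x₁ x₁).det := by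
  have hc : ∀ i j : X × m, Matrix.compRingEquiv X m R M i j = M i.1 j.1 i.2 j.2 := fun _ _ => rfl
  rw [Matrix.twoBlockTriangular_det _ (fun i : X × m => i.1 = x₁)]
  · have h1 : (Matrix.toSquareBlockProp (Matrix.compRingEquiv X m R M)
        fun i => ¬ i.1 = x₁) = 1 := by
      ext i j
      obtain ⟨⟨x, i⟩, hi⟩ := i
      obtain ⟨⟨y, j⟩, hj⟩ := j
      rw [Matrix.toSquareBlockProp_def, Matrix.of_apply, hc, hM x hi y, Matrix.one_apply]
      by_cases hxy : x = y
      · subst hxy
        rw [if_pos rfl, Matrix.one_apply]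
        congr 1
        simp
      · rw [if_neg hxy, if_neg]
        · rfl
        · intro h
          apply hxy
          have := congrArg (fun z : { a : X × m // ¬ a.1 = x₁ } => z.1.1) h
          exact this
    rw [h1, Matrix.det_one, mul_one]
    set e : m ≃ { a : X × m // a.1 = x₁ } :=
      { toFun := fun i => ⟨(x₁, i), rfl⟩
        invFun := fun a => a.1.2
        left_inv := fun i => rfl
        right_inv := fun a => by
          obtain ⟨⟨x, i⟩, hx⟩ := a
          simp only at hx
          subst hx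
          rfl } with he
    rw [← Matrix.det_submatrix_equiv_self e]
    rfl
  · intro i hi j hj
    rw [hc, hM i.1 hi, if_neg]
    · rfl
    · rw [hj]
      exact hi

end Block

section Kappa

variable {S : Type} [Group S] {C : Type} [CommRing C]
variable {m : Type} [Fintype m] [DecidableEq m] (ρ : S →* Matrix m m C)
variable {X : Type} [Fintype X] [DecidableEq X] (gen : X → S)
  (D : X → S → Matrix m m (P S C))
variable (hgen : Subgroup.closure (Set.range gen) = ⊤)
  (hD : ∀ y g h, D y (g * h) = D y g + rep ρ g * D y h)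
  (hDx : ∀ y x, D y (gen x) = if x = y then 1 else 0)

lemma trace_rep (s : S) :
    (rep ρ s).trace = single (Abelianization.of s) fun γ => (ρ (γ s)).trace := by
  rw [Matrix.trace]
  simp only [Matrix.diag_apply, rep_apply]
  have h : ∀ (a : Abelianization S) (F : m → MulAut S → C),
      ∑ l, (single a (F l) : P S C) = single a (∑ l, F l) := fun a F =>
    (map_sum (singleAddHom a) F Finset.univ).symm
  rw [h]
  congr 1
  ext γ
  rw [Finset.sum_apply]
  rfl

lemma D_pow {G L : Type} [Group G] [Ring L] (ρ : G →* L) (D : G → L)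
    (hD : ∀ g h, D (g * h) = D g + ρ g * D h) (g : G) (k : ℕ) :
    D (g ^ k) = ∑ i ∈ Finset.range k, ρ g ^ i * D g := by
  induction k with
  | zero => rw [pow_zero, D_one ρ D hD, Finset.sum_range_zero]
  | succ k ih => rw [pow_succ, hD, ih, Finset.sum_range_succ, map_pow]

lemma D_conj {G L : Type} [Group G] [Ring L] (ρ : G →* L) (D : G → L)
    (hD : ∀ g h, D (g * h) = D g + ρ g * D h) (a w : G) (hw : D w = 0) :
    D (a * w * a⁻¹) = ρ a * (1 - ρ w) * ρ a⁻¹ * D a := by
  have h1 : ρ a * ρ a⁻¹ = 1 := by rw [← map_mul, mul_inv_cancel, map_one]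
  rw [hD, hD, hw, D_inv ρ D hD, map_mul, mul_zero, add_zero, mul_sub, sub_mul, sub_mul, mul_one,
    h1, one_mul, mul_neg, mul_assoc, sub_eq_add_neg, mul_assoc, mul_assoc]

lemma smul_aux {R A : Type} [CommRing R] [Ring A] [Algebra R A] (z : R) (a c M d e : A) :
    a * (c * (1 - (1 + z • M)) * d) * e = z • (a * (c * (-M) * d) * e) := by
  simp only [sub_add_cancel_left, mul_neg, neg_mul, smul_neg, Algebra.mul_smul_comm,
    Algebra.smul_mul_assoc]

include hgen hD hDx in
/-- The wild automorphism with exponent `k` is not in `Nk k`. -/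
theorem wild_not_mem (x₁ : X) (k : ℕ) (hk : 1 ≤ k) (w : S) (hw1 : w ∈ commutator S)
    (hDw : D x₁ w = 0) (z : P S C) (hz : z * z = 0)
    (hzθ : ∀ θ, dl θ z = 0) (hzw : ∃ M, rep ρ w = 1 + z • M)
    (γ : MulAut S) (hγ1 : γ (gen x₁) = gen x₁ * (gen x₁ ^ k * w * (gen x₁ ^ k)⁻¹))
    (hγ2 : ∀ y, y ≠ x₁ → γ (gen y) = gen y)
    (θ : Abelianization S →* Multiplicative ℤ)
    (hθ : θ (Abelianization.of (gen x₁)) = Multiplicative.ofAdd 1)
    (hne : (k : C) * ((ρ (gen x₁ ^ k)).trace - (ρ (w * gen x₁ ^ k)).trace) ≠ 0) :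
    γ ∉ Nk ρ gen D hgen hD hDx k := by
  intro hmem
  set g : S := gen x₁ with hg
  set B : Matrix m m (P S C) := D x₁ (γ g) with hB
  have hΔ : Δ gen D γ = B.det := by
    rw [Δ, det_block _ x₁]
    · rfl
    · intro x hx y
      rw [J, hγ2 x hx, hDx]
  -- the block `B`
  have hDg : D x₁ g = 1 := by rw [hg, hDx, if_pos rfl]
  have hDgk : D x₁ (g ^ k) = ∑ i ∈ Finset.range k, rep ρ g ^ i := by
    rw [D_pow (rep ρ) (D x₁) (hD x₁), hDg]
    simp
  have hB1 : B - 1 = rep ρ g * (rep ρ (g ^ k) * (1 - rep ρ w) * rep ρ (g ^ k)⁻¹) *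
      ∑ i ∈ Finset.range k, rep ρ g ^ i := by
    rw [hB, hγ1, hD, hDg, D_conj (rep ρ) (D x₁) (hD x₁) _ _ hDw, hDgk, add_sub_cancel_left]
    simp only [mul_assoc]
  have hBtr : (B - 1).trace = ∑ i ∈ Finset.range k,
      ((rep ρ (g ^ (i + 1))).trace - (rep ρ (w * g ^ (i + 1))).trace) := by
    rw [hB1, Finset.mul_sum, Matrix.trace_sum]
    refine Finset.sum_congr rfl fun i _ => ?_
    have h3 : rep ρ g * (rep ρ (g ^ k) * (1 - rep ρ w) * rep ρ (g ^ k)⁻¹) * rep ρ g ^ i =
        (rep ρ g * rep ρ (g ^ k)) * ((1 - rep ρ w) * (rep ρ (g ^ k)⁻¹ * rep ρ g ^ i)) := by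
      simp only [mul_assoc]
    have h4 : rep ρ (g ^ k)⁻¹ * rep ρ g ^ i * (rep ρ g * rep ρ (g ^ k)) =
        rep ρ (g ^ (i + 1)) := by
      rw [← map_pow, ← map_mul, ← map_mul, ← map_mul]
      congr 1
      have h5 : g ^ i * (g * g ^ k) = g ^ k * g ^ (i + 1) := by
        rw [← pow_succ', ← pow_add, ← pow_add]
        congr 1
        omega
      rw [mul_assoc, h5, inv_mul_cancel_left]
    rw [h3, Matrix.trace_mul_comm, mul_assoc, h4, sub_mul, one_mul, Matrix.trace_sub, ← map_mul]
  obtain ⟨Z, hZ⟩ : ∃ Z, B = 1 + z • Z := by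
    obtain ⟨M, hM⟩ := hzw
    refine ⟨rep ρ g * (rep ρ (g ^ k) * (-M) * rep ρ (g ^ k)⁻¹) *
      ∑ i ∈ Finset.range k, rep ρ g ^ i, ?_⟩
    rw [← sub_eq_iff_eq_add', hB1, hM]
    exact smul_aux z _ _ _ _ _
  have hdet : B.det = 1 + (B - 1).trace := by
    rw [hZ, Matrix.det_one_add_smul, pow_two, hz, mul_zero, add_zero, add_sub_cancel_left,
      Matrix.trace_smul, smul_eq_mul, mul_comm]
  have hq : ∃ T, (B - 1).trace = z * T :=
    ⟨Z.trace, by rw [hZ, add_sub_cancel_left, Matrix.trace_smul, smul_eq_mul]⟩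
  set q := (B - 1).trace with hqdef
  -- the logarithmic derivative
  have hκ : κ gen D θ γ = dl θ q := by
    have h1 := κ_eq ρ gen D hgen hD hDx θ γ
    rw [hΔ, hdet, map_add, dl_one, zero_add] at h1
    obtain ⟨T, hT⟩ := hq
    have h2 : dl θ q = z * dl θ T := by
      rw [hT, dl_mul, hzθ, zero_mul, zero_add]
    have h3 : q * q = 0 := by
      rw [hT]
      linear_combination (T * T) * hz
    have h4 : dl θ q * q = 0 := by
      rw [h2, hT]
      linear_combination (dl θ T * T) * hz
    have h5 : κ gen D θ γ * q = 0 := by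
      have : κ gen D θ γ * (1 + q) * q = dl θ q * q := by rw [h1]
      linear_combination this + h4 - κ gen D θ γ * h3
    linear_combination h1 - h5
  have ha : Pk k (Abelianization.of g ^ k) := by
    refine ⟨?_, _, rfl⟩
    intro h
    have h1 := congrArg θ h
    rw [map_pow, hθ, MonoidHom.map_one, ← ofAdd_nsmul, ofAdd_eq_one] at h1
    simp at h1
    omega
  have h0 := hmem θ _ ha
  rw [hκ, dl_support] at h0
  have h1 := congrFun h0 1
  rw [Pi.mul_apply, Pi.zero_apply] at h1
  apply hne
  have hθk : ((θ (Abelianization.of g ^ k)).toAdd : MulAut S → C) 1 = (k : C) := by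
    rw [map_pow, hθ, ← ofAdd_nsmul, toAdd_ofAdd]
    simp
  have hqc : q.coeff (Abelianization.of g ^ k) 1 =
      (ρ (g ^ k)).trace - (ρ (w * g ^ k)).trace := by
    have hw : Abelianization.of w = 1 := by
      rw [← Abelianization.ker_of] at hw1
      exact hw1
    rw [hBtr, coeff_sum, Finsupp.finsetSum_apply, Finset.sum_apply, Finset.sum_eq_single (k - 1)]
    · rw [Nat.sub_add_cancel hk, trace_rep, trace_rep, coeff_sub, coeff_single, coeff_single,
        Finsupp.sub_apply, MonoidHom.map_mul, hw, one_mul, MonoidHom.map_pow,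
        Finsupp.single_eq_same, Finsupp.single_eq_same]
      rfl
    · intro i _ hi
      have hne2 : Abelianization.of g ^ k ≠ Abelianization.of g ^ (i + 1) := by
        intro h
        have h1 := congrArg θ h
        rw [map_pow, map_pow, hθ, ← ofAdd_nsmul, ← ofAdd_nsmul] at h1
        have h2 := Multiplicative.ofAdd.injective h1
        simp at h2
        omega
      rw [trace_rep, trace_rep, coeff_sub, coeff_single, coeff_single,
        Finsupp.sub_apply, MonoidHom.map_mul, hw, one_mul, MonoidHom.map_pow,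
        Finsupp.single_eq_of_ne hne2, Finsupp.single_eq_of_ne hne2]
      simp
    · intro h
      exact absurd (Finset.mem_range.2 (by omega)) h
  rw [← hqc, mul_comm, ← hθk]
  exact h1

end Kappa

end Pool.Agent.Helper7.FS
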