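import Pool.Agent.Helper7.FS.Nil

/-!
Leading terms of elements of the derived series under a representation (MP_4aafa9_al).
-/

set_option autoImplicit false

namespace Pool.Agent.Helper7.FS

open scoped commutatorElement

section Lead

variable {G L : Type} [Group G] [Ring L] (t : L) (ht : ∀ x, t * x = x * t) (σ : G →* L)

include ht in
private lemma lead_mul (e : ℕ) (he : 1 ≤ e) (A B : L) :
    (1 + t ^ e * A) * (1 + t ^ e * B) = 1 + t ^ e * (A + B) + t ^ (e + 1) * (t ^ (e - 1) * (A * B)) := by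
  have hc := pow_comm' t ht e
  have h1 : t ^ e * A * (t ^ e * B) = t ^ (e + 1) * (t ^ (e - 1) * (A * B)) := by
    rw [mul_assoc, ← mul_assoc A, ← hc, ← mul_assoc (t ^ (e + 1)), ← pow_add]
    have : e + 1 + (e - 1) = e + e := by omega
    rw [this, pow_add]
    simp only [mul_assoc]
  rw [add_mul, mul_add, mul_add, h1]
  simp only [mul_add, mul_one, one_mul]
  abel

private lemma lead_form (e : ℕ) (M Z : L) : 1 + t ^ e * M + t ^ (e + 1) * Z =
    1 + t ^ e * (M + t * Z) := by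
  rw [pow_succ, mul_add, mul_assoc, add_assoc]

/-- The leading terms of the elements of the derived series. -/
def Q (i : ℕ) : AddSubgroup L where
  carrier := {M | ∃ w ∈ derivedSeries G (i + 1), ∃ Z,
    σ w = 1 + t ^ 2 ^ i * M + t ^ (2 ^ i + 1) * Z}
  zero_mem' := ⟨1, one_mem _, 0, by simp⟩
  add_mem' := by
    rintro M M' ⟨w, hw, Z, h⟩ ⟨w', hw', Z', h'⟩
    refine ⟨w * w', mul_mem hw hw', Z + Z' + t ^ (2 ^ i - 1) * ((M + t * Z) * (M' + t * Z')), ?_⟩
    have h1 : t ^ 2 ^ i * (M + t * Z + (M' + t * Z')) =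
        t ^ 2 ^ i * (M + M') + t ^ (2 ^ i + 1) * (Z + Z') := by
      rw [pow_succ]
      simp only [mul_add, mul_assoc]
      abel
    rw [map_mul, h, h', lead_form t, lead_form t, lead_mul t ht _ Nat.one_le_two_pow, h1,
      mul_add (t ^ (2 ^ i + 1)) (Z + Z')]
    simp only [add_assoc]
  neg_mem' := by
    rintro M ⟨w, hw, Z, h⟩
    have hc := pow_comm' t ht (2 ^ i)
    refine ⟨w⁻¹, inv_mem hw, -Z + t ^ (2 ^ i - 1) * (σ w⁻¹ * (M + t * Z) * (M + t * Z)), ?_⟩
    have h1 : σ w⁻¹ * σ w = 1 := by rw [← map_mul, inv_mul_cancel, map_one]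
    rw [h, lead_form t, mul_add, mul_one, ← mul_assoc, ← hc] at h1
    have h2 : σ w⁻¹ = 1 - t ^ 2 ^ i * σ w⁻¹ * (M + t * Z) := eq_sub_of_add_eq h1
    have h3 : t ^ 2 ^ i * (t ^ 2 ^ i * σ w⁻¹ * (M + t * Z)) * (M + t * Z) =
        t ^ (2 ^ i + 1) * (t ^ (2 ^ i - 1) * (σ w⁻¹ * (M + t * Z) * (M + t * Z))) := by
      rw [← mul_assoc (t ^ (2 ^ i + 1)), ← pow_add]
      have : 2 ^ i + 1 + (2 ^ i - 1) = 2 ^ i + 2 ^ i := by
        have : 1 ≤ 2 ^ i := Nat.one_le_two_pow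
        omega
      rw [this, pow_add]
      simp only [mul_assoc]
    conv_lhs => rw [h2, h2, mul_sub, sub_mul, h3, mul_one]
    rw [mul_add (t ^ (2 ^ i + 1)), ← add_assoc, lead_form t]
    have h4 : -M + t * -Z = -(M + t * Z) := by rw [mul_neg]; abel
    rw [h4, mul_neg]
    abel

lemma mem_Q {i : ℕ} {M : L} : M ∈ Q t ht σ i ↔ ∃ w ∈ derivedSeries G (i + 1), ∃ Z,
    σ w = 1 + t ^ 2 ^ i * M + t ^ (2 ^ i + 1) * Z := Iff.rfl

lemma Q_conj {i : ℕ} {M : L} (hM : M ∈ Q t ht σ i) (g : G) :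
    σ g * M * σ g⁻¹ ∈ Q t ht σ i := by
  obtain ⟨w, hw, Z, h⟩ := hM
  refine ⟨g * w * g⁻¹, (derivedSeries_normal G (i + 1)).conj_mem w hw g, σ g * Z * σ g⁻¹, ?_⟩
  have hc := pow_comm' t ht
  have h1 : σ g * σ g⁻¹ = 1 := by rw [← map_mul, mul_inv_cancel, map_one]
  rw [map_mul, map_mul, h, mul_add, mul_add, add_mul, add_mul, mul_one, h1, ← mul_assoc (σ g),
    ← mul_assoc (σ g), ← hc, ← hc]
  simp only [mul_assoc]

lemma Q_comm {i : ℕ} {M M' : L} (hM : M ∈ Q t ht σ i) (hM' : M' ∈ Q t ht σ i) :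
    M * M' - M' * M ∈ Q t ht σ (i + 1) := by
  obtain ⟨w, hw, Z, h⟩ := hM
  obtain ⟨w', hw', Z', h'⟩ := hM'
  have hc := pow_comm' t ht
  rw [lead_form t] at h h'
  -- the inverse factor is trivial modulo `t`
  obtain ⟨R, hR⟩ : ∃ R, σ (w⁻¹ * w'⁻¹) = 1 + t ^ 2 ^ i * R :=
    mul_mem (inv_mem (show w ∈ U t ht σ (2 ^ i) from ⟨_, h⟩))
      (inv_mem (show w' ∈ U t ht σ (2 ^ i) from ⟨_, h'⟩))
  set A := M + t * Z with hA
  set A' := M' + t * Z' with hA'
  have hAA : A * A' - A' * A = (M * M' - M' * M) + t * (Z * A' + M * Z' - Z' * A - M' * Z) := by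
    have e1 : A * A' = M * M' + t * (Z * A' + M * Z') := by
      have : M * (t * Z') = t * (M * Z') := by rw [← mul_assoc, ← ht, mul_assoc]
      rw [hA, add_mul, hA', mul_add M, this]
      simp only [mul_add, mul_assoc]
      abel
    have e2 : A' * A = M' * M + t * (Z' * A + M' * Z) := by
      have : M' * (t * Z) = t * (M' * Z) := by rw [← mul_assoc, ← ht, mul_assoc]
      rw [hA', add_mul, hA, mul_add M', this]
      simp only [mul_add, mul_assoc]
      abel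
    rw [e1, e2]
    simp only [mul_add, mul_sub]
    abel
  refine ⟨⁅w, w'⁆, Subgroup.commutator_mem_commutator hw hw',
    (Z * A' + M * Z' - Z' * A - M' * Z) + t ^ (2 ^ i - 1) * ((A * A' - A' * A) * R), ?_⟩
  have e3 : t ^ 2 ^ i * A * (t ^ 2 ^ i * A') - t ^ 2 ^ i * A' * (t ^ 2 ^ i * A) =
      t ^ 2 ^ (i + 1) * (A * A' - A' * A) := by
    have p1 : ∀ A B : L, t ^ 2 ^ i * A * (t ^ 2 ^ i * B) = t ^ 2 ^ (i + 1) * (A * B) := by
      intro A B
      rw [mul_assoc, ← mul_assoc A, ← hc, pow_succ 2 i, mul_two, pow_add]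
      simp only [mul_assoc]
    rw [p1, p1, mul_sub]
  have e4 : t ^ 2 ^ (i + 1) * (A * A' - A' * A) * (t ^ 2 ^ i * R) =
      t ^ (2 ^ (i + 1) + 1) * (t ^ (2 ^ i - 1) * ((A * A' - A' * A) * R)) := by
    rw [mul_assoc, ← mul_assoc (A * A' - A' * A), ← hc, ← mul_assoc (t ^ (2 ^ (i + 1) + 1)),
      ← pow_add]
    have : 2 ^ (i + 1) + 1 + (2 ^ i - 1) = 2 ^ (i + 1) + 2 ^ i := by
      have : 1 ≤ 2 ^ i := Nat.one_le_two_pow
      omega
    rw [this, pow_add t]
    simp only [mul_assoc]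
  rw [rho_commutator, h, h', add_sub_cancel_left, add_sub_cancel_left, e3, hR, mul_add, mul_one,
    e4, hAA, mul_add (t ^ (2 ^ (i + 1) + 1)), mul_add (t ^ 2 ^ (i + 1)), pow_succ t (2 ^ (i + 1))]
  simp only [mul_assoc, add_assoc]

/-- The leading term of the commutator of `x` with `y`, where `y` is trivial modulo `t`. -/
lemma Q_zero_of {x y : G} {N : L} (hy : σ y = 1 + t * N) :
    σ x * N * σ x⁻¹ - N ∈ Q t ht σ 0 := by
  refine ⟨⁅x, y⁆, ?_, ?_⟩
  · rw [zero_add, derivedSeries_one]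
    exact Subgroup.commutator_mem_commutator (Subgroup.mem_top _) (Subgroup.mem_top _)
  · set V := σ y⁻¹ with hV
    have h1 : V * (1 + t * N) = 1 := by rw [← hy, hV, ← map_mul, inv_mul_cancel, map_one]
    have h2 : V = 1 - t * (V * N) := by
      rw [mul_add, mul_one, ← mul_assoc, ← ht, mul_assoc] at h1
      exact eq_sub_of_add_eq h1
    have h3 : V = 1 - t * N + t * (t * (V * N * N)) := by
      conv_lhs => rw [h2, h2]
      rw [sub_mul, one_mul, mul_sub, mul_assoc]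
      abel
    have hx : σ x * σ x⁻¹ = 1 := by rw [← map_mul, mul_inv_cancel, map_one]
    refine ⟨V * N * N - σ x * N * σ x⁻¹ * (V * N), ?_⟩
    have h4 : σ ⁅x, y⁆ = (1 + t * (σ x * N * σ x⁻¹)) * V := by
      rw [commutatorElement_def, map_mul, map_mul, map_mul, hy, mul_add, mul_one, add_mul, hx,
        ← mul_assoc (σ x), ← ht]
      simp only [mul_assoc, hV]
    set C := σ x * N * σ x⁻¹ with hC
    rw [h4, add_mul, one_mul]
    conv_lhs => rw [h3]
    have h5 : t * C * (1 - t * N + t * (t * (V * N * N))) = t * C * V := by rw [← h3]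
    rw [h5]
    have h6 : t * C * V = t * C - t * (t * (C * (V * N))) := by
      conv_lhs => rw [h2]
      rw [mul_sub, mul_one, mul_assoc t C, ← mul_assoc C t, ← ht C, mul_assoc t C]
    rw [h6]
    simp only [pow_zero, pow_one, pow_two, mul_sub, one_add_one_eq_two, mul_assoc]
    abel

end Lead

end Pool.Agent.Helper7.FS
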