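import Pool.Agent.Helper7.FS.Lead

/-!
Leading terms for a pair of matrices of size three (MP_4aafa9_al).
-/

set_option autoImplicit false

set_option linter.unusedSectionVars false

namespace Pool.Agent.Helper7.FS

section Mat

variable {C : Type} [CommRing C] [Algebra ℚ C] (η : C)

/-- The scalar matrix `η`. -/
def tm (m : Type) [DecidableEq m] (η : C) : Matrix m m C := η • 1

lemma tm_comm {m : Type} [Fintype m] [DecidableEq m] (x : Matrix m m C) :
    tm m η * x = x * tm m η := by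
  simp [tm]

lemma tm_pow {m : Type} [Fintype m] [DecidableEq m] (e : ℕ) : tm m η ^ e = η ^ e • 1 := by
  rw [tm, smul_pow, one_pow]

lemma tm_pow_mul {m : Type} [Fintype m] [DecidableEq m] (e : ℕ) (x : Matrix m m C) :
    tm m η ^ e * x = η ^ e • x := by
  rw [tm_pow, Matrix.smul_mul, one_mul]

/-- The eigenvalues. -/
def dg : Fin 3 → ℚ := ![1, 2, 8]

lemma dg0 : dg 0 = 1 := rfl

lemma dg1 : dg 1 = 2 := rfl

lemma dg2 : dg 2 = 8 := rfl

lemma dg_ne (i : Fin 3) : dg i ≠ 0 := by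
  fin_cases i <;> simp [dg]

/-- The matrix over `C` with given rational entries. -/
def al (M : Matrix (Fin 3) (Fin 3) ℚ) : Matrix (Fin 3) (Fin 3) C := M.map (algebraMap ℚ C)

lemma al_mul (M N : Matrix (Fin 3) (Fin 3) ℚ) : (al (M * N) : Matrix (Fin 3) (Fin 3) C) =
    al M * al N := Matrix.map_mul

lemma al_sub (M N : Matrix (Fin 3) (Fin 3) ℚ) : (al (M - N) : Matrix (Fin 3) (Fin 3) C) =
    al M - al N := Matrix.map_sub _ (map_sub _) _ _

lemma al_zsmul (z : ℤ) (M : Matrix (Fin 3) (Fin 3) ℚ) :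
    (al (z • M) : Matrix (Fin 3) (Fin 3) C) = z • al M :=
  map_zsmul (algebraMap ℚ C).mapMatrix.toAddMonoidHom z M

variable {G : Type} [Group G] (σ : G →* Matrix (Fin 3) (Fin 3) C) (x y : G)
  (hx : σ x = al (Matrix.diagonal dg)) (hx' : σ x⁻¹ = al (Matrix.diagonal fun i => (dg i)⁻¹))
  (hy : σ y = 1 + tm (Fin 3) η * al (Matrix.of fun _ _ => 1))

include hx hx' in
lemma conj_step {M : Matrix (Fin 3) (Fin 3) ℚ} (hM : al M ∈ Q (tm _ η) (tm_comm η) σ 0)
    (u v : ℤ) :
    al (Matrix.of fun i j => (u * (dg i / dg j) - v) * M i j) ∈ Q (tm _ η) (tm_comm η) σ 0 := by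
  have h1 := Q_conj (tm _ η) (tm_comm η) σ hM x
  rw [hx, hx', ← al_mul, ← al_mul] at h1
  have h2 := sub_mem (zsmul_mem h1 u) (zsmul_mem hM v)
  rw [← al_zsmul, ← al_zsmul, ← al_sub] at h2
  have h3 : (Matrix.of fun i j => (u * (dg i / dg j) - v) * M i j) =
      u • (Matrix.diagonal dg * M * Matrix.diagonal fun i => (dg i)⁻¹) - v • M := by
    ext i j
    rw [Matrix.sub_apply, Matrix.smul_apply, Matrix.smul_apply, Matrix.mul_diagonal,
      Matrix.diagonal_mul, Matrix.of_apply, zsmul_eq_mul, zsmul_eq_mul]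
    ring
  rw [h3]
  exact h2

include hx hx' hy in
lemma list_step (l : List (ℤ × ℤ)) :
    al (Matrix.of fun i j =>
      (l.map fun p => (p.1 : ℚ) * (dg i / dg j) - p.2).prod * (dg i / dg j - 1)) ∈
      Q (tm _ η) (tm_comm η) σ 0 := by
  induction l with
  | nil =>
    have h1 := Q_zero_of (tm _ η) (tm_comm η) σ (x := x) hy
    rw [hx, hx', ← al_mul, ← al_mul, ← al_sub] at h1
    have h3 : (Matrix.of fun i j => (([] : List (ℤ × ℤ)).map fun p =>
        (p.1 : ℚ) * (dg i / dg j) - p.2).prod * (dg i / dg j - 1)) =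
        (Matrix.diagonal dg * (Matrix.of fun _ _ => 1) * Matrix.diagonal fun i => (dg i)⁻¹) -
          Matrix.of fun _ _ => 1 := by
      ext i j
      rw [Matrix.sub_apply, Matrix.mul_diagonal, Matrix.diagonal_mul, Matrix.of_apply,
        Matrix.of_apply, List.map_nil, List.prod_nil]
      ring
    rw [h3]
    exact h1
  | cons p l ih =>
    have h1 := conj_step η σ x hx hx' ih p.1 p.2
    have h3 : (Matrix.of fun i j => ((p :: l).map fun p =>
        (p.1 : ℚ) * (dg i / dg j) - p.2).prod * (dg i / dg j - 1)) =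
        Matrix.of fun i j => (p.1 * (dg i / dg j) - p.2) * (Matrix.of fun i j =>
          (l.map fun p => (p.1 : ℚ) * (dg i / dg j) - p.2).prod * (dg i / dg j - 1)) i j := by
      ext i j
      rw [Matrix.of_apply, Matrix.of_apply, Matrix.of_apply, List.map_cons, List.prod_cons,
        mul_assoc]
    rw [h3]
    exact h1

include hx hx' hy in
lemma root_of_list (a b : Fin 3) (l : List (ℤ × ℤ))
    (h0 : (l.map fun p => (p.1 : ℚ) * (dg a / dg b) - p.2).prod * (dg a / dg b - 1) ≠ 0)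
    (h1 : ∀ i j, (i, j) ≠ (a, b) →
      (l.map fun p => (p.1 : ℚ) * (dg i / dg j) - p.2).prod * (dg i / dg j - 1) = 0) :
    ∃ c : ℚ, c ≠ 0 ∧ al (Matrix.single a b c) ∈ Q (tm _ η) (tm_comm η) σ 0 := by
  refine ⟨_, h0, ?_⟩
  have h2 := list_step η σ x y hx hx' hy l
  have h3 : (Matrix.single a b
      ((l.map fun p => (p.1 : ℚ) * (dg a / dg b) - p.2).prod * (dg a / dg b - 1))) =
      Matrix.of fun i j =>
        (l.map fun p => (p.1 : ℚ) * (dg i / dg j) - p.2).prod * (dg i / dg j - 1) := by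
    ext i j
    by_cases h : (i, j) = (a, b)
    · rw [Prod.mk.injEq] at h
      obtain ⟨rfl, rfl⟩ := h
      rw [Matrix.single_apply_same, Matrix.of_apply]
    · rw [Matrix.of_apply, h1 i j h]
      rw [Prod.mk.injEq, not_and_or] at h
      rw [Matrix.single_apply_of_ne]
      tauto
  rw [h3]
  exact h2

include hx hx' hy in
lemma root_zero (a b : Fin 3) (hab : a ≠ b) :
    ∃ c : ℚ, c ≠ 0 ∧ al (Matrix.single a b c) ∈ Q (tm _ η) (tm_comm η) σ 0 := by
  have key := root_of_list η σ x y hx hx' hy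
  fin_cases a <;> fin_cases b
  · exact absurd rfl hab
  · refine key 0 1 [(1, 2), (8, 1), (1, 8), (8, 2), (2, 8)] (by norm_num [dg0, dg1, dg2]) ?_
    simp only [Fin.forall_fin_succ, Fin.succ_zero_eq_one, Fin.succ_one_eq_two, dg0, dg1, dg2]
    norm_num
  · refine key 0 2 [(2, 1), (1, 2), (1, 8), (8, 2), (2, 8)] (by norm_num [dg0, dg1, dg2]) ?_
    simp only [Fin.forall_fin_succ, Fin.succ_zero_eq_one, Fin.succ_one_eq_two, dg0, dg1, dg2]
    norm_num
  · refine key 1 0 [(2, 1), (8, 1), (1, 8), (8, 2), (2, 8)] (by norm_num [dg0, dg1, dg2]) ?_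
    simp only [Fin.forall_fin_succ, Fin.succ_zero_eq_one, Fin.succ_one_eq_two, dg0, dg1, dg2]
    norm_num
  · exact absurd rfl hab
  · refine key 1 2 [(2, 1), (1, 2), (8, 1), (1, 8), (2, 8)] (by norm_num [dg0, dg1, dg2]) ?_
    simp only [Fin.forall_fin_succ, Fin.succ_zero_eq_one, Fin.succ_one_eq_two, dg0, dg1, dg2]
    norm_num
  · refine key 2 0 [(2, 1), (1, 2), (8, 1), (8, 2), (2, 8)] (by norm_num [dg0, dg1, dg2]) ?_
    simp only [Fin.forall_fin_succ, Fin.succ_zero_eq_one, Fin.succ_one_eq_two, dg0, dg1, dg2]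
    norm_num
  · refine key 2 1 [(2, 1), (1, 2), (8, 1), (1, 8), (8, 2)] (by norm_num [dg0, dg1, dg2]) ?_
    simp only [Fin.forall_fin_succ, Fin.succ_zero_eq_one, Fin.succ_one_eq_two, dg0, dg1, dg2]
    norm_num
  · exact absurd rfl hab

include hx hx' hy in
lemma root_all (i : ℕ) (a b : Fin 3) (hab : a ≠ b) :
    ∃ c : ℚ, c ≠ 0 ∧ al (Matrix.single a b c) ∈ Q (tm _ η) (tm_comm η) σ i := by
  induction i generalizing a b with
  | zero => exact root_zero η σ x y hx hx' hy a b hab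
  | succ i ih =>
    obtain ⟨l, hl1, hl2⟩ : ∃ l : Fin 3, a ≠ l ∧ l ≠ b := by
      revert a b
      decide
    obtain ⟨c, hc, h⟩ := ih a l hl1
    obtain ⟨c', hc', h'⟩ := ih l b hl2
    refine ⟨c * c', mul_ne_zero hc hc', ?_⟩
    have h2 := Q_comm (tm _ η) (tm_comm η) σ h h'
    rw [← al_mul, ← al_mul, ← al_sub, Matrix.single_mul_single_same,
      Matrix.single_mul_single_of_ne _ _ _ _ hab.symm, sub_zero] at h2
    exact h2

include hx hx' hy in
/-- An element of the derived series with a diagonal leading term. -/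
lemma exists_diag (i : ℕ) (hη : η ^ (2 ^ (i + 1) + 1) = 0) :
    ∃ w ∈ derivedSeries G (i + 2), ∃ c : ℚ, c ≠ 0 ∧
      σ w = 1 + η ^ 2 ^ (i + 1) • al (Matrix.single 0 0 c - Matrix.single 1 1 c) := by
  obtain ⟨c, hc, h⟩ := root_all η σ x y hx hx' hy i 0 1 (by decide)
  obtain ⟨c', hc', h'⟩ := root_all η σ x y hx hx' hy i 1 0 (by decide)
  have h2 := Q_comm (tm _ η) (tm_comm η) σ h h'
  rw [← al_mul, ← al_mul, ← al_sub, Matrix.single_mul_single_same,
    Matrix.single_mul_single_same, mul_comm c' c] at h2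
  obtain ⟨w, hw, Z, hZ⟩ := h2
  refine ⟨w, hw, c * c', mul_ne_zero hc hc', ?_⟩
  rw [hZ, tm_pow_mul, tm_pow_mul, hη, zero_smul, add_zero]

end Mat

end Pool.Agent.Helper7.FS
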