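import Mathlib

/-!
Wild automorphisms of free solvable groups, and the abelianization (MP_4aafa9_al).
-/

set_option autoImplicit false

namespace Pool.Agent.Helper7.FS

section Wild

variable (X : Type) (n : ℕ)

/-- The free solvable group of derived length `n` on `X`. -/
abbrev Sol : Type := FreeGroup X ⧸ derivedSeries (FreeGroup X) n

variable {X n}

/-- The free generators. -/
def gen (x : X) : Sol X n := QuotientGroup.mk' _ (FreeGroup.of x)

lemma closure_gen : Subgroup.closure (Set.range (gen (X := X) (n := n))) = ⊤ := by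
  have h1 : Set.range (gen (X := X) (n := n)) =
      QuotientGroup.mk' (derivedSeries (FreeGroup X) n) '' Set.range FreeGroup.of := by
    rw [← Set.range_comp]
    rfl
  rw [h1, ← MonoidHom.map_closure, FreeGroup.closure_range_of,
    Subgroup.map_top_of_surjective _ (QuotientGroup.mk'_surjective _)]

lemma derived_eq_bot : derivedSeries (Sol X n) n = ⊥ := by
  have h := map_derivedSeries_eq (f := QuotientGroup.mk' (derivedSeries (FreeGroup X) n))
    (QuotientGroup.mk'_surjective _) n
  rw [← h, QuotientGroup.map_mk'_self]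

/-- Homomorphisms to groups of derived length `n`. -/
lemma exists_hom {G : Type} [Group G] (hG : derivedSeries G n = ⊥) (f : X → G) :
    ∃ φ : Sol X n →* G, ∀ x, φ (gen x) = f x := by
  refine ⟨QuotientGroup.lift _ (FreeGroup.lift f) ?_, fun x => ?_⟩
  · intro g hg
    have h := map_derivedSeries_le_derivedSeries (FreeGroup.lift f) n
      (Subgroup.mem_map_of_mem _ hg)
    rw [hG] at h
    exact h
  · show FreeGroup.lift f (FreeGroup.of x) = _
    rw [FreeGroup.lift_apply_of]

lemma hom_ext {G : Type} [Group G] {φ ψ : Sol X n →* G} (h : ∀ x, φ (gen x) = ψ (gen x)) :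
    φ = ψ := by
  apply QuotientGroup.monoidHom_ext
  ext x
  exact h x

/-- The wild automorphisms. -/
lemma exists_wild (x₁ : X) (k : ℕ) (w : Sol X (n + 1)) (hw : w ∈ derivedSeries (Sol X (n + 1)) n)
    (hw2 : w ∈ Subgroup.closure {g | ∃ y, y ≠ x₁ ∧ g = gen y}) :
    ∃ γ : MulAut (Sol X (n + 1)), γ (gen x₁) = gen x₁ * (gen x₁ ^ k * w * (gen x₁ ^ k)⁻¹) ∧
      ∀ y, y ≠ x₁ → γ (gen y) = gen y := by
  classical
  have hB : ∀ a ∈ derivedSeries (Sol X (n + 1)) n, ∀ b ∈ derivedSeries (Sol X (n + 1)) n,
      a * b = b * a := by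
    intro a ha b hb
    have h := Subgroup.commutator_mem_commutator ha hb
    rw [← derivedSeries_succ, derived_eq_bot, Subgroup.mem_bot,
      commutatorElement_eq_one_iff_mul_comm] at h
    exact h
  have hN : (derivedSeries (Sol X (n + 1)) n).Normal := derivedSeries_normal _ _
  set s : Sol X (n + 1) := gen x₁ ^ k * w * (gen x₁ ^ k)⁻¹ with hs
  have hsB : s ∈ derivedSeries (Sol X (n + 1)) n := hN.conj_mem w hw _
  have key : ∀ u ∈ derivedSeries (Sol X (n + 1)) n, ∃ φ : Sol X (n + 1) →* Sol X (n + 1),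
      φ (gen x₁) = gen x₁ * u ∧ (∀ y, y ≠ x₁ → φ (gen y) = gen y) ∧ φ s = s := by
    intro u hu
    obtain ⟨φ, hφ⟩ := exists_hom (X := X) (derived_eq_bot (X := X) (n := n + 1))
      (fun x => if x = x₁ then gen x₁ * u else gen x)
    have h1 : φ (gen x₁) = gen x₁ * u := by rw [hφ, if_pos rfl]
    have h2 : ∀ y, y ≠ x₁ → φ (gen y) = gen y := fun y hy => by rw [hφ, if_neg hy]
    refine ⟨φ, h1, h2, ?_⟩
    have h3 : φ w = w := by
      have h3' : Subgroup.closure {g | ∃ y, y ≠ x₁ ∧ g = gen y} ≤
          φ.eqLocus (MonoidHom.id (Sol X (n + 1))) := by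
        rw [Subgroup.closure_le]
        rintro _ ⟨y, hy, rfl⟩
        exact h2 y hy
      exact h3' hw2
    have h4 : ∀ j : ℕ, ∀ v ∈ derivedSeries (Sol X (n + 1)) n,
        (gen x₁ * u) ^ j * v * ((gen x₁ * u) ^ j)⁻¹ = gen x₁ ^ j * v * (gen x₁ ^ j)⁻¹ := by
      intro j
      induction j with
      | zero => intro v _; simp
      | succ j ih =>
        intro v hv
        have h5 : gen x₁ * u * v * (gen x₁ * u)⁻¹ = gen x₁ * v * (gen x₁)⁻¹ := by
          rw [mul_assoc (gen x₁), hB u hu v hv]
          group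
        have h6 : (gen x₁ * u) ^ (j + 1) * v * ((gen x₁ * u) ^ (j + 1))⁻¹ =
            (gen x₁ * u) ^ j * (gen x₁ * u * v * (gen x₁ * u)⁻¹) * ((gen x₁ * u) ^ j)⁻¹ := by
          rw [pow_succ]
          group
        rw [h6, h5, ih _ (hN.conj_mem v hv _), pow_succ]
        group
    rw [hs, map_mul, map_mul, map_inv, map_pow, h1, h3, h4 k w hw]
  obtain ⟨φ, h1, h2, h3⟩ := key s hsB
  obtain ⟨ψ, h4, h5, h6⟩ := key s⁻¹ (inv_mem hsB)
  have e1 : φ.comp ψ = MonoidHom.id _ := by
    apply hom_ext
    intro x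
    by_cases hx : x = x₁
    · subst hx
      rw [MonoidHom.comp_apply, h4, map_mul, map_inv, h1, h3]
      simp
    · rw [MonoidHom.comp_apply, h5 x hx, h2 x hx]
      rfl
  have e2 : ψ.comp φ = MonoidHom.id _ := by
    apply hom_ext
    intro x
    by_cases hx : x = x₁
    · subst hx
      rw [MonoidHom.comp_apply, h1, map_mul, h4, h6]
      simp
    · rw [MonoidHom.comp_apply, h2 x hx, h5 x hx]
      rfl
  exact ⟨MonoidHom.toMulEquiv φ ψ e2 e1, h1, h2⟩

/-- Nontrivial elements of the abelianization are divisible only by finitely many numbers. -/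
lemma ab_divisible [Finite X] (a : Abelianization (Sol X (n + 1))) (ha : a ≠ 1) :
    ∃ K : ℕ, ∀ k, K ≤ k → ¬ ∃ b, b ^ k = a := by
  classical
  have hcomm : derivedSeries (Multiplicative (X → ℤ)) (n + 1) = ⊥ := by
    rw [eq_bot_iff]
    refine (derivedSeries_antitone _ (Nat.le_add_left 1 n)).trans ?_
    rw [derivedSeries_one, commutator_def, Subgroup.commutator_le]
    intro g _ h _
    rw [Subgroup.mem_bot, commutatorElement_eq_one_iff_mul_comm, mul_comm]
  obtain ⟨φ, hφ⟩ := exists_hom (X := X) hcomm (fun x => Multiplicative.ofAdd (Pi.single x 1))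
  set c : Abelianization (Sol X (n + 1)) →* Multiplicative (X → ℤ) := Abelianization.lift φ
  cases nonempty_fintype X
  -- the inverse homomorphism
  set e : Multiplicative (X → ℤ) →* Abelianization (Sol X (n + 1)) :=
    { toFun := fun v => ∏ x, Abelianization.of (gen x) ^ (v.toAdd x)
      map_one' := by simp
      map_mul' := fun v w => by
        rw [← Finset.prod_mul_distrib]
        refine Finset.prod_congr rfl fun x _ => ?_
        rw [toAdd_mul, Pi.add_apply, zpow_add] } with he
  have hec : e.comp c = MonoidHom.id _ := by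
    apply Abelianization.hom_ext
    apply hom_ext
    intro x
    show e (φ (gen x)) = Abelianization.of (gen x)
    rw [hφ]
    show ∏ y, Abelianization.of (gen y) ^ ((Pi.single x 1 : X → ℤ) y) = _
    rw [Finset.prod_eq_single x]
    · simp
    · intro y _ hy
      rw [Pi.single_eq_of_ne hy, zpow_zero]
    · intro h
      exact absurd (Finset.mem_univ x) h
  have hca : c a ≠ 1 := by
    intro h
    apply ha
    have := DFunLike.congr_fun hec a
    rw [MonoidHom.comp_apply, h, map_one] at this
    exact this.symm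
  obtain ⟨x, hx⟩ : ∃ x, (c a).toAdd x ≠ 0 := by
    by_contra h
    push Not at h
    exact hca (Multiplicative.toAdd.injective (funext h))
  refine ⟨((c a).toAdd x).natAbs + 1, fun k hk => ?_⟩
  rintro ⟨b, rfl⟩
  rw [map_pow, toAdd_pow, Pi.smul_apply, nsmul_eq_mul] at hx hk
  rw [Int.natAbs_mul, Int.natAbs_natCast] at hk
  have h1 : ((c b).toAdd x).natAbs ≠ 0 := by
    intro h
    rw [Int.natAbs_eq_zero] at h
    rw [h, mul_zero] at hx
    exact hx rfl
  have h2 : 1 ≤ ((c b).toAdd x).natAbs := Nat.one_le_iff_ne_zero.2 h1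
  nlinarith

end Wild

end Pool.Agent.Helper7.FS
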