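import Pool.Agent.Helper7.FS.Det
import Pool.Agent.Helper7.FS.Mat
import Pool.Agent.Helper7.FS.Wild

/-!
The automorphism group of a free solvable group of rank at least three and derived length at least
three is not finitely generated (MP_4aafa9_al).
-/

set_option autoImplicit false

set_option linter.unusedSectionVars false

namespace Pool.Agent.Helper7.FS

open MonoidAlgebra
open scoped commutatorElement

section Ring

/-- truncated polynomials -/
abbrev Ct (e : ℕ) : Type := Polynomial ℚ ⧸ Ideal.span {(Polynomial.X : Polynomial ℚ) ^ (e + 1)}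

/-- the nilpotent generator -/
noncomputable def ηt (e : ℕ) : Ct e := Ideal.Quotient.mk _ Polynomial.X

lemma ηt_pow (e : ℕ) : ηt e ^ (e + 1) = 0 := by
  rw [ηt, ← map_pow, Ideal.Quotient.eq_zero_iff_mem]
  exact Ideal.subset_span rfl

lemma ηt_pow_of_le {e f : ℕ} (h : e + 1 ≤ f) : ηt e ^ f = 0 := by
  obtain ⟨g, rfl⟩ := Nat.exists_eq_add_of_le h
  rw [pow_add, ηt_pow, zero_mul]

lemma ηt_pow_ne (e : ℕ) (c : ℚ) (hc : c ≠ 0) : ηt e ^ e * algebraMap ℚ (Ct e) c ≠ 0 := by
  have h1 : algebraMap ℚ (Ct e) c = Ideal.Quotient.mk _ (Polynomial.C c) := rfl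
  rw [ηt, ← map_pow, h1, ← map_mul, Ne, Ideal.Quotient.eq_zero_iff_mem,
    Ideal.mem_span_singleton]
  intro h
  have h2 := Polynomial.natDegree_le_of_dvd h (by
    simpa using hc)
  rw [Polynomial.natDegree_X_pow, Polynomial.natDegree_mul_C hc, Polynomial.natDegree_X_pow] at h2
  omega

/-- evaluation at zero -/
noncomputable def ev (e : ℕ) : Ct e →+* ℚ :=
  Ideal.Quotient.lift _ (Polynomial.evalRingHom (0 : ℚ)) (by
    intro a ha
    rw [Ideal.mem_span_singleton] at ha
    obtain ⟨b, rfl⟩ := ha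
    simp)

lemma ev_ηt (e : ℕ) : ev e (ηt e) = 0 := by
  show Polynomial.evalRingHom (0 : ℚ) Polynomial.X = 0
  simp

lemma ev_algebraMap (e : ℕ) (c : ℚ) : ev e (algebraMap ℚ (Ct e) c) = c := by
  show Polynomial.evalRingHom (0 : ℚ) (Polynomial.C c) = c
  simp

lemma ev_ker (e : ℕ) (c : Ct e) (hc : ev e c = 0) : ∃ c', c = ηt e * c' := by
  obtain ⟨p, rfl⟩ := Ideal.Quotient.mk_surjective c
  have h1 : Polynomial.eval 0 p = 0 := hc
  have h2 : (Polynomial.X : Polynomial ℚ) ∣ p := by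
    rw [Polynomial.X_dvd_iff, Polynomial.coeff_zero_eq_eval_zero, h1]
  obtain ⟨q, rfl⟩ := h2
  exact ⟨Ideal.Quotient.mk _ q, map_mul _ _ _⟩

end Ring

section Base

variable {X : Type} [DecidableEq X] (x₂ : X) (e : ℕ)

/-- the diagonal unit -/
noncomputable def uD : (Matrix (Fin 3) (Fin 3) (Ct e))ˣ where
  val := al (Matrix.diagonal dg)
  inv := al (Matrix.diagonal fun i => (dg i)⁻¹)
  val_inv := by
    rw [← al_mul, Matrix.diagonal_mul_diagonal]
    simp only [mul_inv_cancel₀ (dg_ne _)]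
    rw [al, Matrix.diagonal_one]
    exact Matrix.map_one _ (map_zero _) (map_one _)
  inv_val := by
    rw [← al_mul, Matrix.diagonal_mul_diagonal]
    simp only [inv_mul_cancel₀ (dg_ne _)]
    rw [al, Matrix.diagonal_one]
    exact Matrix.map_one _ (map_zero _) (map_one _)

lemma isUnit_N : IsUnit (1 + tm (Fin 3) (ηt e) * al (Matrix.of fun _ _ => 1)) := by
  apply IsNilpotent.isUnit_one_add
  refine ⟨e + 1, ?_⟩
  have hc : Commute (tm (Fin 3) (ηt e)) (al (Matrix.of fun _ _ => 1)) := tm_comm _ _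
  have h0 : tm (Fin 3) (ηt e) ^ (e + 1) = 0 := by
    ext i j
    simp [tm_pow, ηt_pow]
  rw [hc.mul_pow, h0, zero_mul]

/-- the unipotent unit -/
noncomputable def uN : (Matrix (Fin 3) (Fin 3) (Ct e))ˣ := (isUnit_N e).unit

/-- the base representation of the free group -/
noncomputable def ρF : FreeGroup X →* Matrix (Fin 3) (Fin 3) (Ct e) :=
  (Units.coeHom _).comp (FreeGroup.lift fun x => if x = x₂ then uN e else uD e)

lemma ρF_x₂ : ρF x₂ e (FreeGroup.of x₂) = 1 + tm (Fin 3) (ηt e) * al (Matrix.of fun _ _ => 1) := by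
  rw [ρF, MonoidHom.comp_apply, FreeGroup.lift_apply_of, if_pos rfl]
  exact (isUnit_N e).unit_spec

lemma ρF_of {x : X} (hx : x ≠ x₂) : ρF x₂ e (FreeGroup.of x) = al (Matrix.diagonal dg) := by
  rw [ρF, MonoidHom.comp_apply, FreeGroup.lift_apply_of, if_neg hx]
  rfl

lemma ρF_inv {x : X} (hx : x ≠ x₂) :
    ρF x₂ e (FreeGroup.of x)⁻¹ = al (Matrix.diagonal fun i => (dg i)⁻¹) := by
  rw [ρF, MonoidHom.comp_apply, map_inv, FreeGroup.lift_apply_of, if_neg hx]
  rfl

lemma ev_al (M : Matrix (Fin 3) (Fin 3) ℚ) :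
    (ev e).mapMatrix (al M : Matrix (Fin 3) (Fin 3) (Ct e)) = M := by
  ext i j
  rw [RingHom.mapMatrix_apply, Matrix.map_apply, al, Matrix.map_apply, ev_algebraMap]

lemma ev_tm (M : Matrix (Fin 3) (Fin 3) (Ct e)) :
    (ev e).mapMatrix (tm (Fin 3) (ηt e) * M) = 0 := by
  have h : tm (Fin 3) (ηt e) * M = ηt e • M := by
    have := tm_pow_mul (ηt e) 1 M
    rwa [pow_one, pow_one] at this
  ext i j
  rw [h, RingHom.mapMatrix_apply, Matrix.map_apply, Matrix.smul_apply, smul_eq_mul, map_mul,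
    ev_ηt, zero_mul, Matrix.zero_apply]

lemma ρF_ev (g : FreeGroup X) : ∃ d : Fin 3 → ℚ, (ev e).mapMatrix (ρF x₂ e g) =
    Matrix.diagonal d := by
  have h2 : (ev e).mapMatrix (ρF x₂ e (FreeGroup.of x₂)) = 1 := by
    rw [ρF_x₂, map_add, map_one, ev_tm, add_zero]
  induction g using FreeGroup.induction_on with
  | C1 => exact ⟨1, by rw [map_one, map_one]; exact Matrix.diagonal_one.symm⟩
  | of x =>
    by_cases hx : x = x₂
    · subst hx
      exact ⟨1, by rw [h2]; exact Matrix.diagonal_one.symm⟩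
    · exact ⟨dg, by rw [ρF_of x₂ e hx, ev_al]⟩
  | inv_of x ih =>
    by_cases hx : x = x₂
    · subst hx
      refine ⟨1, ?_⟩
      have h3 : (ev e).mapMatrix (ρF x e (FreeGroup.of x)) *
          (ev e).mapMatrix (ρF x e (FreeGroup.of x)⁻¹) = 1 := by
        rw [← map_mul, ← map_mul, mul_inv_cancel, map_one, map_one]
      rw [h2, one_mul] at h3
      rw [h3]
      exact Matrix.diagonal_one.symm
    · exact ⟨_, by rw [ρF_inv x₂ e hx, ev_al]⟩
  | mul a b iha ihb =>
    obtain ⟨d, hd⟩ := iha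
    obtain ⟨d', hd'⟩ := ihb
    exact ⟨_, by rw [map_mul, map_mul, hd, hd', Matrix.diagonal_mul_diagonal]⟩

lemma ρF_commutator (a b : FreeGroup X) : ∃ M, ρF x₂ e ⁅a, b⁆ = 1 + tm (Fin 3) (ηt e) * M := by
  have h1 : (ev e).mapMatrix (ρF x₂ e ⁅a, b⁆) = 1 := by
    obtain ⟨d, hd⟩ := ρF_ev x₂ e a
    obtain ⟨d', hd'⟩ := ρF_ev x₂ e b
    have h2 : (ev e).mapMatrix (ρF x₂ e (a * b)) = (ev e).mapMatrix (ρF x₂ e (b * a)) := by
      rw [map_mul, map_mul, map_mul, map_mul, hd, hd', Matrix.diagonal_mul_diagonal,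
        Matrix.diagonal_mul_diagonal]
      congr 1
      ext i
      exact mul_comm _ _
    have h3 : ⁅a, b⁆ = a * b * (b * a)⁻¹ := by
      rw [commutatorElement_def]
      group
    rw [h3, map_mul (ρF x₂ e), map_mul, h2, ← map_mul, ← map_mul, mul_inv_cancel, map_one,
      map_one]
  have h4 : ∀ i j, ∃ c', (ρF x₂ e ⁅a, b⁆ - 1) i j = ηt e * c' := by
    intro i j
    apply ev_ker
    have h5 : (ev e).mapMatrix (ρF x₂ e ⁅a, b⁆ - 1) = 0 := by
      rw [map_sub, h1, map_one, sub_self]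
    have h6 := congrFun (congrFun h5 i) j
    exact h6
  choose M hM using h4
  refine ⟨Matrix.of M, ?_⟩
  have h : tm (Fin 3) (ηt e) * Matrix.of M = ηt e • Matrix.of M := by
    have := tm_pow_mul (ηt e) 1 (Matrix.of M)
    rwa [pow_one, pow_one] at this
  rw [h, ← sub_eq_iff_eq_add']
  ext i j
  rw [hM, Matrix.smul_apply, smul_eq_mul, Matrix.of_apply]

end Base

section Final

variable {X : Type} [DecidableEq X] [Fintype X]

/-- the base representation of the free solvable group -/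
lemma exists_base (x₂ : X) (i e : ℕ) (he : e = 2 ^ (i + 1)) :
    ∃ ρ : Sol X (i + 3) →* Matrix (Fin 3) (Fin 3) (Ct e),
      ∀ g, ρ (QuotientGroup.mk' _ g) = ρF x₂ e g := by
  refine ⟨QuotientGroup.lift _ (ρF x₂ e) ?_, fun g => rfl⟩
  intro g hg
  obtain ⟨M, hM⟩ := derived_le_U (tm (Fin 3) (ηt e)) (tm_comm _) (ρF x₂ e) (ρF_commutator x₂ e)
    (i + 2) hg
  have h1 : e + 1 ≤ 2 ^ (i + 2) := by
    rw [he, pow_succ 2 (i + 1)]
    have : 1 ≤ 2 ^ (i + 1) := Nat.one_le_two_pow
    omega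
  rw [tm_pow_mul, ηt_pow_of_le h1] at hM
  show ρF x₂ e g = 1
  rw [hM]
  ext j l
  simp

lemma al_pow {e : ℕ} (M : Matrix (Fin 3) (Fin 3) ℚ) (k : ℕ) :
    (al (M ^ k) : Matrix (Fin 3) (Fin 3) (Ct e)) = al M ^ k :=
  map_pow (algebraMap ℚ (Ct e)).mapMatrix M k

lemma D_zero_closure {G L : Type} [Group G] [Ring L] (ρ : G →* L) (D : G → L)
    (hD : ∀ g h, D (g * h) = D g + ρ g * D h) (s : Set G) (hs : ∀ x ∈ s, D x = 0) (g : G)
    (hg : g ∈ Subgroup.closure s) : D g = 0 := by
  induction hg using Subgroup.closure_induction with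
  | mem x hx => exact hs x hx
  | one => exact D_one ρ D hD
  | mul a b _ _ iha ihb => rw [hD, iha, ihb, mul_zero, add_zero]
  | inv a _ iha => rw [D_inv ρ D hD, iha, mul_zero, neg_zero]

lemma trace_al {C : Type} [CommRing C] [Algebra ℚ C] (M : Matrix (Fin 3) (Fin 3) ℚ) :
    (al M : Matrix (Fin 3) (Fin 3) C).trace = algebraMap ℚ C M.trace := by
  rw [Matrix.trace, Matrix.trace, map_sum]
  rfl

lemma trace_eq {C : Type} [CommRing C] [Algebra ℚ C] (z : C) (k : ℕ) (c : ℚ) :
    (k : C) * ((al (Matrix.diagonal dg ^ k) : Matrix (Fin 3) (Fin 3) C).trace -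
      (((1 : Matrix (Fin 3) (Fin 3) C) + z • al (Matrix.single 0 0 c - Matrix.single 1 1 c)) *
        al (Matrix.diagonal dg ^ k)).trace) =
      z * algebraMap ℚ C ((k : ℚ) * (c * (2 ^ k - 1))) := by
  have htr : ((Matrix.single 0 0 c - Matrix.single 1 1 c) * Matrix.diagonal (dg ^ k)).trace =
      -(c * (2 ^ k - 1)) := by
    rw [Matrix.trace_fin_three]
    simp only [Matrix.mul_diagonal, Matrix.sub_apply, Pi.pow_apply, dg0, dg1, dg2]
    simp [Matrix.single]
    ring
  rw [add_mul, one_mul, Matrix.smul_mul, ← al_mul, Matrix.trace_add,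
    Matrix.trace_smul, trace_al, trace_al, sub_add_cancel_left, Matrix.diagonal_pow, htr,
    smul_eq_mul, map_neg, map_mul (algebraMap ℚ C) (k : ℚ), map_natCast]
  ring

lemma trace_part (e k : ℕ) (hk : 1 ≤ k) (c : ℚ) (hc : c ≠ 0)
    (W : Matrix (Fin 3) (Fin 3) (Ct e))
    (hW : W = 1 + ηt e ^ e • al (Matrix.single 0 0 c - Matrix.single 1 1 c)) :
    (k : Ct e) * ((al (Matrix.diagonal dg ^ k) : Matrix (Fin 3) (Fin 3) (Ct e)).trace -
      (W * al (Matrix.diagonal dg ^ k)).trace) ≠ 0 := by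
  rw [hW, trace_eq]
  apply ηt_pow_ne
  have h2 : (1 : ℚ) < 2 ^ k := one_lt_pow₀ (by norm_num) (by omega)
  have h3 : (k : ℚ) ≠ 0 := by
    have : k ≠ 0 := by omega
    exact_mod_cast this
  exact mul_ne_zero h3 (mul_ne_zero hc (by linarith))

/-- The main theorem for a set of generators with three different elements. -/
theorem not_fg_sol (x₁ x₂ x₃ : X) (h12 : x₁ ≠ x₂) (h13 : x₁ ≠ x₃) (h23 : x₂ ≠ x₃) (i : ℕ) :
    ¬ Group.FG (MulAut (Sol X (i + 3))) := by
  obtain ⟨e, he⟩ : ∃ e, e = 2 ^ (i + 1) := ⟨_, rfl⟩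
  obtain ⟨ρ, hρ⟩ := exists_base x₂ i e he
  have he1 : 1 ≤ 2 ^ (i + 1) := Nat.one_le_two_pow
  have hmk : Function.Surjective
      (QuotientGroup.mk' (derivedSeries (FreeGroup X) (i + 3))) := QuotientGroup.mk'_surjective _
  -- commutators under the base representation
  have hρc : ∀ a b : Sol X (i + 3), ∃ M, ρ ⁅a, b⁆ = 1 + tm (Fin 3) (ηt e) * M := by
    intro a b
    obtain ⟨a, rfl⟩ := hmk a
    obtain ⟨b, rfl⟩ := hmk b
    obtain ⟨M, hM⟩ := ρF_commutator x₂ e a b
    refine ⟨M, ?_⟩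
    rw [← map_commutatorElement, hρ, hM]
  -- the universal representation
  set ηP : P (Sol X (i + 3)) (Ct e) := single 1 fun _ => ηt e with hηP
  have hηpow : ∀ f, ηP ^ f = single 1 fun _ => ηt e ^ f := by
    intro f
    rw [hηP, single_pow, one_pow]
    rfl
  have hη0 : ∀ f, e + 1 ≤ f → ηP ^ f = 0 := by
    intro f hf
    rw [hηpow, ηt_pow_of_le hf]
    exact single_zero _
  have hrepc : ∀ a b : Sol X (i + 3), ∃ M, rep ρ ⁅a, b⁆ = 1 + tm (Fin 3) ηP * M := by
    intro a b
    have h1 : ∀ γ : MulAut (Sol X (i + 3)), ∃ M, ρ (γ ⁅a, b⁆) = 1 + tm (Fin 3) (ηt e) * M := by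
      intro γ
      rw [map_commutatorElement]
      exact hρc _ _
    choose M hM using h1
    refine ⟨Matrix.of fun j l => single 1 fun γ => M γ j l, ?_⟩
    have h2 : tm (Fin 3) ηP * (Matrix.of fun j l => single 1 fun γ => M γ j l) =
        ηP • (Matrix.of fun j l => single 1 fun γ => M γ j l) := by
      have := tm_pow_mul ηP 1 (Matrix.of fun j l => single 1 fun γ => M γ j l)
      rwa [pow_one, pow_one] at this
    have h3 : ∀ γ, tm (Fin 3) (ηt e) * M γ = ηt e • M γ := by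
      intro γ
      have := tm_pow_mul (ηt e) 1 (M γ)
      rwa [pow_one, pow_one] at this
    have h4 : Abelianization.of ⁅a, b⁆ = (1 : Abelianization (Sol X (i + 3))) := by
      rw [map_commutatorElement, commutatorElement_eq_one_iff_mul_comm, mul_comm]
    rw [h2]
    ext1 j l
    rw [rep_apply, h4, Matrix.add_apply, Matrix.smul_apply, Matrix.of_apply, smul_eq_mul, hηP,
      single_mul_single, one_mul, Matrix.one_apply]
    have h5 : (fun γ : MulAut (Sol X (i + 3)) => ρ (γ ⁅a, b⁆) j l) =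
        (fun _ => (1 : Matrix (Fin 3) (Fin 3) (Ct e)) j l) +
          (fun _ => ηt e) * fun γ => M γ j l := by
      ext γ
      rw [hM, h3]
      rfl
    rw [h5, single_add]
    congr 1
    by_cases hjl : j = l
    · rw [if_pos hjl, hjl]
      simp only [Matrix.one_apply_eq]
      rfl
    · rw [if_neg hjl]
      simp only [Matrix.one_apply_ne hjl]
      exact single_zero _
  -- the derivations
  have hK : ∀ D : FreeGroup X → Matrix (Fin 3) (Fin 3) (P (Sol X (i + 3)) (Ct e)),
      (∀ g h, D (g * h) = D g + rep ρ (QuotientGroup.mk' _ g) * D h) →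
      ∀ k ∈ derivedSeries (FreeGroup X) (i + 3), D k = 0 := by
    intro D hD k hk
    obtain ⟨z, hz⟩ := derived_le_V (tm (Fin 3) ηP) (tm_comm _)
      ((rep ρ).comp (QuotientGroup.mk' (derivedSeries (FreeGroup X) (i + 3)))) D hD
      (by
        intro a b
        rw [MonoidHom.comp_apply, map_commutatorElement]
        exact hrepc _ _) (i + 2) hk
    have h1 : e + 1 ≤ 2 ^ (i + 2) - 1 := by
      rw [he, pow_succ 2 (i + 1)]
      have : 2 ≤ 2 ^ (i + 1) := by
        rw [pow_succ]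
        have : 1 ≤ 2 ^ i := Nat.one_le_two_pow
        omega
      omega
    rw [hz, tm_pow_mul, hη0 _ h1]
    ext j l
    simp
  have hex := fun y : X => exists_deriv_quot (derivedSeries (FreeGroup X) (i + 3)) (rep ρ) hK
    (fun x => if x = y then (1 : Matrix (Fin 3) (Fin 3) (P (Sol X (i + 3)) (Ct e))) else 0)
  choose D hD hDx using hex
  have hDx' : ∀ y x, D y (gen x) = if x = y then 1 else 0 := hDx
  apply not_fg ρ gen D closure_gen hD hDx'
  · intro a ha
    obtain ⟨K, hK⟩ := ab_divisible a ha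
    exact ⟨K, fun k hk h => hK k hk h.2⟩
  · intro k hk
    -- the element `w`
    set ι : FreeGroup Bool →* Sol X (i + 3) :=
      FreeGroup.lift fun b => if b then gen x₃ else gen x₂ with hι
    have hιt : ι (FreeGroup.of true) = gen x₃ := by simp [hι]
    have hιf : ι (FreeGroup.of false) = gen x₂ := by simp [hι]
    obtain ⟨w', hw', c, hc, hσ⟩ := exists_diag (ηt e) (ρ.comp ι) (FreeGroup.of true)
      (FreeGroup.of false)
      (by
        rw [MonoidHom.comp_apply, hιt]
        exact (hρ _).trans (ρF_of x₂ e h23.symm))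
      (by
        rw [MonoidHom.comp_apply, map_inv, hιt]
        exact (hρ (FreeGroup.of x₃)⁻¹).trans (ρF_inv x₂ e h23.symm))
      (by
        rw [MonoidHom.comp_apply, hιf]
        exact (hρ _).trans (ρF_x₂ x₂ e)) i (by rw [← he]; exact ηt_pow e)
    set w := ι w' with hw
    have hwd : w ∈ derivedSeries (Sol X (i + 3)) (i + 2) :=
      map_derivedSeries_le_derivedSeries ι (i + 2) (Subgroup.mem_map_of_mem _ hw')
    have hwc : w ∈ Subgroup.closure {g : Sol X (i + 3) | ∃ y, y ≠ x₁ ∧ g = gen y} := by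
      rw [hw]
      clear hw hwd hσ hw'
      induction w' using FreeGroup.induction_on with
      | C1 => rw [map_one]; exact one_mem _
      | of b =>
        cases b
        · exact Subgroup.subset_closure ⟨x₂, h12.symm, hιf⟩
        · exact Subgroup.subset_closure ⟨x₃, h13.symm, hιt⟩
      | inv_of b ih => rw [map_inv]; exact inv_mem ih
      | mul a b iha ihb => rw [map_mul]; exact mul_mem iha ihb
    obtain ⟨γ, hγ1, hγ2⟩ := exists_wild x₁ k w hwd hwc
    refine ⟨γ, ?_⟩
    -- a character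
    have hcomm : derivedSeries (Multiplicative ℤ) (i + 3) = ⊥ := by
      rw [eq_bot_iff]
      refine (derivedSeries_antitone _ (Nat.le_add_left 1 (i + 2))).trans ?_
      rw [derivedSeries_one, commutator_def, Subgroup.commutator_le]
      intro g _ h _
      rw [Subgroup.mem_bot, commutatorElement_eq_one_iff_mul_comm, mul_comm]
    obtain ⟨φ, hφ⟩ := exists_hom (X := X) hcomm (fun _ => Multiplicative.ofAdd 1)
    have hz2 : ηP ^ 2 ^ (i + 1) * ηP ^ 2 ^ (i + 1) = 0 := by
      rw [← pow_add]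
      apply hη0
      omega
    refine wild_not_mem ρ gen D closure_gen hD hDx' x₁ k hk w ?_ ?_ (ηP ^ 2 ^ (i + 1)) hz2 ?_ ?_
      γ hγ1 hγ2 (Abelianization.lift φ) (hφ x₁) ?_
    · rw [← derivedSeries_one]
      exact derivedSeries_antitone _ (by omega) hwd
    · apply D_zero_closure (rep ρ) (D x₁) (hD x₁) _ _ w hwc
      rintro _ ⟨y, hy, rfl⟩
      rw [hDx', if_neg hy]
    · intro θ
      rw [hηpow, dl_single]
      simp
    · obtain ⟨M, hM⟩ := derived_le_U (tm (Fin 3) ηP) (tm_comm _) (rep ρ) hrepc (i + 1) hwd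
      exact ⟨M, by rw [hM, tm_pow_mul]⟩
    · have hg : ρ (gen x₁ ^ k) = al (Matrix.diagonal dg ^ k) := by
        rw [al_pow, map_pow]
        congr 1
        exact (hρ _).trans (ρF_of x₂ e h12)
      rw [map_mul, hg]
      apply trace_part e k hk c hc
      have hw2 : ρ w = 1 + ηt e ^ 2 ^ (i + 1) • al (Matrix.single 0 0 c - Matrix.single 1 1 c) :=
        hσ
      rw [hw2, ← he]

end Final

end Pool.Agent.Helper7.FS
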