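import Mathlib

/-!
Derivations along a representation of a group that is abelian modulo a nilpotent central element
(MP_4aafa9_al).
-/

set_option autoImplicit false

namespace Pool.Agent.Helper7.FS

open scoped commutatorElement

section Nil

variable {G L : Type*} [Group G] [Ring L] (t : L) (ht : ∀ x, t * x = x * t) (ρ : G →* L)

include ht in
lemma pow_comm' (e : ℕ) (x : L) : t ^ e * x = x * t ^ e := by
  have h : Commute t x := ht x
  exact (h.pow_left e).eq

/-- The elements of the group which act trivially modulo `t ^ e`. -/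
def U (e : ℕ) : Subgroup G where
  carrier := {g | ∃ M, ρ g = 1 + t ^ e * M}
  mul_mem' := by
    rintro a b ⟨M, hM⟩ ⟨M', hM'⟩
    have hc := pow_comm' t ht e
    refine ⟨M + M' + M * (t ^ e * M'), ?_⟩
    rw [map_mul, hM, hM']
    simp only [mul_add, add_mul, mul_one, one_mul]
    rw [← mul_assoc (t ^ e) M, mul_assoc (t ^ e) M]
    abel
  one_mem' := ⟨0, by simp⟩
  inv_mem' := by
    rintro a ⟨M, hM⟩
    have hc := pow_comm' t ht e
    refine ⟨-(ρ a⁻¹ * M), ?_⟩
    have h : ρ a⁻¹ * ρ a = 1 := by rw [← map_mul, inv_mul_cancel, map_one]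
    rw [hM, mul_add, mul_one, ← mul_assoc, ← hc, mul_assoc] at h
    rw [mul_neg, ← sub_eq_add_neg, eq_sub_iff_add_eq]
    exact h

lemma mem_U {e : ℕ} {g : G} : g ∈ U t ht ρ e ↔ ∃ M, ρ g = 1 + t ^ e * M := Iff.rfl

/-- commutator formula -/
lemma rho_commutator (a b : G) :
    ρ ⁅a, b⁆ = 1 + ((ρ a - 1) * (ρ b - 1) - (ρ b - 1) * (ρ a - 1)) * ρ (a⁻¹ * b⁻¹) := by
  have h : ρ b * ρ a * ρ (a⁻¹ * b⁻¹) = 1 := by
    rw [← map_mul, ← map_mul]
    have : b * a * (a⁻¹ * b⁻¹) = 1 := by group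
    rw [this, map_one]
  have h2 : ρ ⁅a, b⁆ = ρ a * ρ b * ρ (a⁻¹ * b⁻¹) := by
    rw [← map_mul, ← map_mul, commutatorElement_def]
    congr 1
    group
  have h3 : (ρ a - 1) * (ρ b - 1) - (ρ b - 1) * (ρ a - 1) = ρ a * ρ b - ρ b * ρ a := by
    noncomm_ring
  rw [h3, sub_mul, h, h2]
  abel

lemma commutator_mem_U {e f : ℕ} {a b : G} (ha : a ∈ U t ht ρ e) (hb : b ∈ U t ht ρ f) :
    ⁅a, b⁆ ∈ U t ht ρ (e + f) := by
  obtain ⟨M, hM⟩ := ha
  obtain ⟨M', hM'⟩ := hb
  have hc := pow_comm' t ht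
  refine ⟨(M * M' - M' * M) * ρ (a⁻¹ * b⁻¹), ?_⟩
  rw [rho_commutator, hM, hM', add_sub_cancel_left, add_sub_cancel_left]
  have h1 : t ^ e * M * (t ^ f * M') = t ^ (e + f) * (M * M') := by
    rw [mul_assoc, ← mul_assoc M, ← hc f M, pow_add]
    simp only [mul_assoc]
  have h2 : t ^ f * M' * (t ^ e * M) = t ^ (e + f) * (M' * M) := by
    rw [mul_assoc, ← mul_assoc M', ← hc e M', add_comm, pow_add]
    simp only [mul_assoc]
  rw [h1, h2, ← mul_sub, mul_assoc]

/-- The derived series is mapped into the congruence filtration. -/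
theorem derived_le_U (h1 : ∀ a b : G, ∃ M, ρ ⁅a, b⁆ = 1 + t * M) (j : ℕ) :
    derivedSeries G (j + 1) ≤ U t ht ρ (2 ^ j) := by
  induction j with
  | zero =>
    rw [zero_add, derivedSeries_one, commutator_def, Subgroup.commutator_le]
    intro a _ b _
    obtain ⟨M, hM⟩ := h1 a b
    exact ⟨M, by simpa using hM⟩
  | succ j ih =>
    rw [derivedSeries_succ, Subgroup.commutator_le]
    intro a ha b hb
    have := commutator_mem_U t ht ρ (ih ha) (ih hb)
    rwa [← two_mul, ← pow_succ'] at this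

variable (D : G → L) (hD : ∀ g h, D (g * h) = D g + ρ g * D h)

include hD in
lemma D_one : D 1 = 0 := by
  have h := hD 1 1
  rw [mul_one, map_one, one_mul] at h
  exact left_eq_add.1 h

include hD in
lemma D_inv (g : G) : D g⁻¹ = - (ρ g⁻¹ * D g) := by
  have h := hD g⁻¹ g
  rw [inv_mul_cancel, D_one ρ D hD] at h
  exact eq_neg_of_add_eq_zero_left h.symm

/-- The elements of the group where the derivation is divisible by `t ^ e`. -/
def V (e : ℕ) : Subgroup G where
  carrier := {g | ∃ z, D g = t ^ e * z}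
  mul_mem' := by
    rintro a b ⟨M, hM⟩ ⟨M', hM'⟩
    have hc := pow_comm' t ht e
    refine ⟨M + ρ a * M', ?_⟩
    rw [hD, hM, hM', ← mul_assoc (ρ a), ← hc, mul_add, mul_assoc]
  one_mem' := ⟨0, by rw [D_one ρ D hD, mul_zero]⟩
  inv_mem' := by
    rintro a ⟨M, hM⟩
    have hc := pow_comm' t ht e
    refine ⟨-(ρ a⁻¹ * M), ?_⟩
    rw [D_inv ρ D hD, hM, ← mul_assoc, ← hc, mul_assoc, mul_neg]

include hD in
lemma D_commutator (a b : G) :
    D ⁅a, b⁆ = (1 - ρ (a * b * a⁻¹)) * D a + (ρ a - ρ ⁅a, b⁆) * D b := by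
  rw [commutatorElement_def, hD, hD, hD, D_inv ρ D hD a, D_inv ρ D hD b]
  have h1 : ρ (a * b * a⁻¹ * b⁻¹) = ρ (a * b * a⁻¹) * ρ b⁻¹ := map_mul _ _ _
  have h2 : ρ (a * b * a⁻¹) = ρ (a * b) * ρ a⁻¹ := map_mul _ _ _
  rw [h1, h2]
  noncomm_ring

/-- A derivation on the derived series. -/
theorem derived_le_V (h1 : ∀ a b : G, ∃ M, ρ ⁅a, b⁆ = 1 + t * M) (j : ℕ) :
    derivedSeries G (j + 1) ≤ V t ht ρ D hD (2 ^ j - 1) := by
  induction j with
  | zero =>
    intro g _
    exact ⟨D g, by simp⟩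
  | succ j ih =>
    rw [derivedSeries_succ, Subgroup.commutator_le]
    intro a ha b hb
    have hc := pow_comm' t ht
    obtain ⟨z, hz⟩ := ih ha
    obtain ⟨z', hz'⟩ := ih hb
    have hU := derived_le_U t ht ρ h1 j
    obtain ⟨M, hM⟩ := hU ((derivedSeries_normal G (j + 1)).conj_mem b hb a)
    obtain ⟨M1, hM1⟩ := hU ha
    obtain ⟨M2, hM2⟩ := derived_le_U t ht ρ h1 (j + 1)
      (Subgroup.commutator_mem_commutator ha hb)
    have he : 2 ^ (j + 1) - 1 = 2 ^ j + (2 ^ j - 1) := by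
      have : 1 ≤ 2 ^ j := Nat.one_le_two_pow
      rw [pow_succ]
      omega
    refine ⟨-(M * z) + (M1 - t ^ (2 ^ j) * M2) * z', ?_⟩
    have e1 : (1 - (1 + t ^ 2 ^ j * M)) * (t ^ (2 ^ j - 1) * z) =
        t ^ 2 ^ j * t ^ (2 ^ j - 1) * (-(M * z)) := by
      rw [sub_add_cancel_left, neg_mul, mul_neg, mul_assoc, ← mul_assoc M, ← hc (2 ^ j - 1) M]
      simp only [mul_assoc]
    have e2 : (1 + t ^ 2 ^ j * M1 - (1 + t ^ 2 ^ (j + 1) * M2)) * (t ^ (2 ^ j - 1) * z') =
        t ^ 2 ^ j * t ^ (2 ^ j - 1) * ((M1 - t ^ (2 ^ j) * M2) * z') := by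
      have e3 : 1 + t ^ 2 ^ j * M1 - (1 + t ^ 2 ^ (j + 1) * M2) =
          t ^ 2 ^ j * (M1 - t ^ (2 ^ j) * M2) := by
        rw [pow_succ 2 j, mul_two, pow_add, mul_sub, mul_assoc]
        abel
      rw [e3, mul_assoc, ← mul_assoc _ (t ^ (2 ^ j - 1)) z', ← hc (2 ^ j - 1)]
      simp only [mul_assoc]
    rw [D_commutator ρ D hD, hM, hM1, hM2, hz, hz', e1, e2, he, pow_add t (2 ^ j), mul_add]

end Nil

section Deriv

variable {X L : Type*} [Ring L]

/-- an affine permutation -/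
def affPerm (u : Lˣ) (v : L) : Equiv.Perm L where
  toFun z := v + u * z
  invFun z := (↑u⁻¹ : L) * (z - v)
  left_inv z := by simp
  right_inv z := by simp

/-- Existence of derivations on a free group with given values on the generators. -/
theorem exists_deriv (ρ : FreeGroup X →* L) (v : X → L) :
    ∃ D : FreeGroup X → L, (∀ g h, D (g * h) = D g + ρ g * D h) ∧
      ∀ x, D (FreeGroup.of x) = v x := by
  set Φ : FreeGroup X →* Equiv.Perm L :=
    FreeGroup.lift fun x => affPerm (ρ.toHomUnits (FreeGroup.of x)) (v x) with hΦ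
  have key : ∀ g : FreeGroup X, ∀ z, Φ g z = Φ g 0 + ρ g * z := by
    intro g
    induction g using FreeGroup.induction_on with
    | C1 => intro z; simp
    | of x => intro z; simp [hΦ, affPerm]
    | inv_of x ih =>
      intro z
      have h1 : ∀ y, (Φ (FreeGroup.of x))⁻¹ y = ρ (FreeGroup.of x)⁻¹ * (y - v x) := by
        intro y
        rw [Equiv.Perm.inv_eq_iff_eq]
        simp only [hΦ, FreeGroup.lift_apply_of, affPerm, Equiv.coe_fn_mk]
        rw [MonoidHom.coe_toHomUnits, ← mul_assoc, ← map_mul, mul_inv_cancel, map_one, one_mul]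
        abel
      rw [map_inv, h1, h1, zero_sub, mul_sub, mul_neg]
      abel
    | mul a b iha ihb =>
      intro z
      rw [map_mul, Equiv.Perm.mul_apply, Equiv.Perm.mul_apply, ihb z, iha (_ + _), iha (Φ b 0),
        map_mul]
      noncomm_ring
  refine ⟨fun g => Φ g 0, fun g h => ?_, fun x => ?_⟩
  · simp only [map_mul, Equiv.Perm.mul_apply]
    rw [key g (Φ h 0)]
  · simp [hΦ, affPerm]

/-- Two derivations that agree on generators are equal. -/
theorem deriv_unique {G : Type*} [Group G] {L : Type*} [Ring L] (ρ : G →* L) (s : Set G)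
    (hs : Subgroup.closure s = ⊤) (D D' : G → L) (hD : ∀ g h, D (g * h) = D g + ρ g * D h)
    (hD' : ∀ g h, D' (g * h) = D' g + ρ g * D' h) (h : ∀ x ∈ s, D x = D' x) (g : G) :
    D g = D' g := by
  have hg : g ∈ Subgroup.closure s := by rw [hs]; trivial
  induction hg using Subgroup.closure_induction with
  | mem x hx => exact h x hx
  | one => rw [D_one ρ D hD, D_one ρ D' hD']
  | mul a b _ _ iha ihb => rw [hD, hD', iha, ihb]
  | inv a _ iha => rw [D_inv ρ D hD, D_inv ρ D' hD', iha]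

/-- Derivations on a quotient of a free group. -/
theorem exists_deriv_quot (K : Subgroup (FreeGroup X)) [K.Normal] (ρ : FreeGroup X ⧸ K →* L)
    (hK : ∀ D : FreeGroup X → L, (∀ g h, D (g * h) = D g + ρ (QuotientGroup.mk' K g) * D h) →
      ∀ k ∈ K, D k = 0) (v : X → L) :
    ∃ D : FreeGroup X ⧸ K → L, (∀ g h, D (g * h) = D g + ρ g * D h) ∧
      ∀ x, D (QuotientGroup.mk' K (FreeGroup.of x)) = v x := by
  obtain ⟨D, hD, hv⟩ := exists_deriv (ρ.comp (QuotientGroup.mk' K)) v
  have h0 := hK D hD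
  have hwd : ∀ a b : FreeGroup X, QuotientGroup.mk' K a = QuotientGroup.mk' K b → D a = D b := by
    intro a b hab
    have hk : a⁻¹ * b ∈ K := (QuotientGroup.eq).1 hab
    have h1 := hD a (a⁻¹ * b)
    rw [h0 _ hk, mul_zero, add_zero, mul_inv_cancel_left] at h1
    exact h1.symm
  have hs := QuotientGroup.mk'_surjective K
  refine ⟨fun s => D (Function.surjInv hs s), fun g h => ?_, fun x => ?_⟩
  · show D _ = D _ + ρ g * D _
    have h1 : D (Function.surjInv hs (g * h)) =
        D (Function.surjInv hs g * Function.surjInv hs h) := by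
      apply hwd
      rw [map_mul, Function.surjInv_eq hs, Function.surjInv_eq hs, Function.surjInv_eq hs]
    rw [h1, hD, MonoidHom.comp_apply, Function.surjInv_eq hs]
  · show D _ = _
    rw [← hv]
    apply hwd
    rw [Function.surjInv_eq hs]

end Deriv

end Pool.Agent.Helper7.FS
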